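import Pool.Agent.H829C.Obst

/-!
# The obstacle theorem with weights
-/

set_option autoImplicit false

namespace Pool.Agent.H829D

open Finset H726.GD H829C
open scoped Classical

variable {d : ℕ} {A : (Pt d) → (Pt d) → Prop} (Z : Rl A)

theorem stepW {f : List (Pt d) → ℝ} (hf : ∀ w, 0 ≤ f w) {Df : ℝ} (hD : 0 ≤ Df)
    (hDf : ∀ (w : List (Pt d)) (q : List (Pt d) × List (Pt d)), Walk A w → q ∈ Z.S w →
      f w ≤ Df * f (Rl.rep w q.1 q.2)) (O : Set (Pt d)) (J : ℝ) (n k : ℕ) :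
    (∑ w ∈ cls Z O J n k, f w) * (J - Z.CC * k) ≤
      Df * (∑ w ∈ cls Z O J n (k + 1), f w) * (((Z.k + Z.s) * (k + 1) : ℕ) * Z.c0) := by
  have h1 : (∑ w ∈ cls Z O J n k, f w) * (J - Z.CC * k) ≤
      ∑ w ∈ cls Z O J n k, ∑ _q ∈ mv Z O w, f w := by
    rw [Finset.sum_mul]
    refine Finset.sum_le_sum fun w hw => ?_
    unfold cls at hw
    rw [Finset.mem_filter] at hw
    rw [Finset.sum_const, nsmul_eq_mul, mul_comm]
    exact mul_le_mul_of_nonneg_right (by linarith [hw.2.2]) (hf w)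
  refine h1.trans ?_
  rw [Finset.sum_sigma']
  have h2 : ∑ x ∈ (cls Z O J n k).sigma (fun w => mv Z O w), f x.1 ≤
      ∑ x ∈ (cls Z O J n k).sigma (fun w => mv Z O w), Df * f (Rl.rep x.1 x.2.1 x.2.2) := by
    refine Finset.sum_le_sum fun x hx => ?_
    rw [Finset.mem_sigma] at hx
    obtain ⟨h3, h4⟩ := hx
    unfold cls at h3
    rw [Finset.mem_filter, Z.mem_K] at h3
    unfold mv at h4
    rw [Finset.mem_filter] at h4
    exact hDf _ _ h3.1.2 h4.1
  refine h2.trans ?_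
  rw [← Finset.mul_sum, mul_assoc]
  refine mul_le_mul_of_nonneg_left ?_ hD
  have h3 : ∑ x ∈ (cls Z O J n k).sigma (fun w => mv Z O w), f (Rl.rep x.1 x.2.1 x.2.2) =
      ∑ y ∈ ((cls Z O J n k).sigma (fun w => mv Z O w)).image
        (fun x => (⟨Rl.rep x.1 x.2.1 x.2.2, x.2⟩ : Σ _ : List (Pt d), List (Pt d) × List (Pt d))),
        f y.1 := by
    rw [Finset.sum_image]
    rintro ⟨w, q⟩ hx ⟨w', q'⟩ hx' h
    rw [Finset.mem_coe, Finset.mem_sigma] at hx hx'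
    simp only [Sigma.mk.injEq, heq_eq_eq] at h
    obtain ⟨h5, h6⟩ := h
    subst h6
    obtain ⟨-, -, h7⟩ := one_move Z O J n k hx.1 hx.2
    obtain ⟨-, -, h8⟩ := one_move Z O J n k hx'.1 hx'.2
    simp only at h7 h8
    rw [← h7, h5, h8]
  rw [h3]
  have h4 : ∑ y ∈ ((cls Z O J n k).sigma (fun w => mv Z O w)).image
      (fun x => (⟨Rl.rep x.1 x.2.1 x.2.2, x.2⟩ : Σ _ : List (Pt d), List (Pt d) × List (Pt d))),
      f y.1 ≤ ∑ y ∈ (cls Z O J n (k + 1)).sigma (fun w => (hit O w).biUnion Z.cand), f y.1 := by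
    refine Finset.sum_le_sum_of_subset_of_nonneg ?_ fun y _ _ => hf _
    intro y hy
    rw [Finset.mem_image] at hy
    obtain ⟨⟨w, q⟩, hx, rfl⟩ := hy
    rw [Finset.mem_sigma] at hx ⊢
    obtain ⟨h3, h4, -⟩ := one_move Z O J n k hx.1 hx.2
    exact ⟨h3, h4⟩
  refine h4.trans ?_
  rw [Finset.sum_sigma, Finset.sum_mul]
  refine Finset.sum_le_sum fun w hw => ?_
  show (∑ _s ∈ (hit O w).biUnion Z.cand, f w) ≤ _
  rw [Finset.sum_const, nsmul_eq_mul, mul_comm]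
  refine mul_le_mul_of_nonneg_left ?_ (hf w)
  unfold cls at hw
  rw [Finset.mem_filter] at hw
  exact_mod_cast (Finset.card_biUnion_le_card_mul _ _ _ fun x _ => Z.card_cand x).trans
      (Nat.mul_le_mul_right _ hw.2.1)

/-- **Obstacle theorem with weights.** -/
theorem obstW (M0 Df : ℝ) (hM0 : 0 ≤ M0) (hD : 0 ≤ Df) :
    ∃ K : ℝ, 1 ≤ K ∧ ∀ f : List (Pt d) → ℝ, (∀ w, 0 ≤ f w) →
      (∀ (w : List (Pt d)) (q : List (Pt d) × List (Pt d)), Walk A w → q ∈ Z.S w →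
        f w ≤ Df * f (Rl.rep w q.1 q.2)) →
      (∀ n k : ℕ, ∑ w ∈ Kw A (n + Z.s * k), f w ≤ M0 ^ k * ∑ w ∈ Kw A n, f w) →
      ∀ (O : Set (Pt d)) (n : ℕ) (J : ℝ),
        ∑ w ∈ (Kw A n).filter (fun w => (∀ x ∈ w, x ∈ O → x = 0) ∧
          J ≤ ((mv Z O w).card : ℝ)), f w ≤ K * Real.exp (-J / K) * ∑ w ∈ Kw A n, f w := by
  obtain ⟨B, hB⟩ : ∃ B : ℝ, B = Df * (((Z.k + Z.s : ℕ) : ℝ) * Z.c0) := ⟨_, rfl⟩
  have hB0 : 0 ≤ B := by rw [hB]; positivity
  obtain ⟨M, hM⟩ : ∃ M : ℝ, M = 3 + 2 * Z.CC + 6 * B * M0 := ⟨_, rfl⟩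
  have hCC : (0 : ℝ) ≤ Z.CC := Nat.cast_nonneg _
  have hBM : 0 ≤ B * M0 := mul_nonneg hB0 hM0
  have hM3 : 3 ≤ M := by rw [hM]; nlinarith
  have hM1 : 2 * (Z.CC : ℝ) ≤ M := by rw [hM]; nlinarith
  have hM2 : 6 * B * M0 ≤ M := by rw [hM]; nlinarith
  refine ⟨M, by linarith, fun f hf hDf hs O n J => ?_⟩
  obtain ⟨Y, hY⟩ : ∃ Y : ℝ, Y = ∑ w ∈ Kw A n, f w := ⟨_, rfl⟩
  have hc : 0 ≤ Y := by rw [hY]; exact Finset.sum_nonneg fun w _ => hf w
  rw [← hY]
  by_cases hJ : J ≤ 0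
  · have h1 : ∑ w ∈ (Kw A n).filter (fun w => (∀ x ∈ w, x ∈ O → x = 0) ∧
        J ≤ ((mv Z O w).card : ℝ)), f w ≤ Y := by
      rw [hY]
      exact Finset.sum_le_sum_of_subset_of_nonneg (Finset.filter_subset _ _) fun w _ _ => hf w
    have h2 : 1 ≤ Real.exp (-J / M) := by
      apply Real.one_le_exp
      apply div_nonneg <;> linarith
    have h3 : 1 ≤ M * Real.exp (-J / M) := by nlinarith
    nlinarith
  push Not at hJ
  have hMp : 0 < M := by linarith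
  obtain ⟨k, hk⟩ : ∃ k : ℕ, k = ⌊J / M⌋₊ := ⟨_, rfl⟩
  have hk1 : (k : ℝ) ≤ J / M := by rw [hk]; exact Nat.floor_le (by positivity)
  have hk2 : J / M < k + 1 := by rw [hk]; exact Nat.lt_floor_add_one _
  have hk3 : (k : ℝ) * M ≤ J := by rwa [le_div_iff₀ hMp] at hk1
  obtain ⟨S, hS⟩ : ∃ S : ℕ → ℝ, S = fun j => ∑ w ∈ cls Z O J n j, f w := ⟨_, rfl⟩
  have hS0 : ∀ j, 0 ≤ S j := by
    intro j
    rw [hS]
    exact Finset.sum_nonneg fun w _ => hf w
  have hstep : ∀ j : ℕ, S j * (J - Z.CC * j) ≤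
      Df * S (j + 1) * (((Z.k + Z.s) * (j + 1) : ℕ) * Z.c0) := by
    intro j
    rw [hS]
    exact stepW Z hf hD hDf O J n j
  have hrec : ∀ j, j < k → S j ≤ (2 * B / M) * S (j + 1) := by
    intro j hj
    have h1 := hstep j
    have hj1 : (j : ℝ) + 1 ≤ k := by exact_mod_cast hj
    have h2 : J / 2 ≤ J - Z.CC * j := by
      have : (Z.CC : ℝ) * j ≤ J / 2 := by
        have h3 : (j : ℝ) * M ≤ J := by nlinarith
        have h4 : (j : ℝ) * (2 * Z.CC) ≤ j * M := by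
          apply mul_le_mul_of_nonneg_left hM1 (Nat.cast_nonneg _)
        nlinarith
      linarith
    have h3 : S j * (J / 2) ≤ S (j + 1) * (B * (J / M)) := by
      refine (mul_le_mul_of_nonneg_left h2 (hS0 _)).trans (h1.trans ?_)
      have h4 : Df * S (j + 1) * ((((Z.k + Z.s) * (j + 1) : ℕ) : ℝ) * Z.c0) =
          S (j + 1) * (B * ((j : ℝ) + 1)) := by
        rw [hB]; push_cast; ring
      rw [h4]
      refine mul_le_mul_of_nonneg_left ?_ (hS0 _)
      exact mul_le_mul_of_nonneg_left (hj1.trans hk1) hB0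
    have h5 : S (j + 1) * (B * (J / M)) = (2 * B / M) * S (j + 1) * (J / 2) := by
      field_simp
    rw [h5] at h3
    exact le_of_mul_le_mul_right h3 (by positivity)
  have hit : ∀ j, j ≤ k → S 0 ≤ (2 * B / M) ^ j * S j := by
    intro j
    induction j with
    | zero => intro _; simp
    | succ j ih =>
      intro hj
      refine (ih (by omega)).trans ?_
      have h1 := hrec j (by omega)
      have h2 : 0 ≤ (2 * B / M) ^ j := by positivity
      calc (2 * B / M) ^ j * S j ≤ (2 * B / M) ^ j * ((2 * B / M) * S (j + 1)) :=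
            mul_le_mul_of_nonneg_left h1 h2
        _ = _ := by ring
  have h0 : ∑ w ∈ (Kw A n).filter (fun w => (∀ x ∈ w, x ∈ O → x = 0) ∧
      J ≤ ((mv Z O w).card : ℝ)), f w ≤ S 0 := by
    rw [hS]
    refine Finset.sum_le_sum_of_subset_of_nonneg ?_ fun w _ _ => hf w
    intro w hw
    rw [Finset.mem_filter] at hw
    unfold cls
    rw [Finset.mem_filter]
    refine ⟨by simpa using hw.1, ?_, ?_⟩
    · simp only [Nat.mul_zero, Nat.le_zero, Finset.card_eq_zero]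
      unfold H829C.hit
      rw [Finset.filter_eq_empty_iff]
      intro x hx hc
      rw [List.mem_toFinset] at hx
      exact hc.2 (hw.2.1 x hx hc.1)
    · simpa using hw.2.2
  have h1 : S k ≤ M0 ^ k * Y := by
    rw [hS, hY]
    refine le_trans ?_ (hs n k)
    exact Finset.sum_le_sum_of_subset_of_nonneg (Finset.filter_subset _ _) fun w _ _ => hf w
  have h2 := hit k le_rfl
  have h3 : (2 * B / M) ^ k * S k ≤ (2 * B / M * M0) ^ k * Y := by
    rw [mul_pow, mul_assoc]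
    exact mul_le_mul_of_nonneg_left h1 (by positivity)
  have h4 : 2 * B / M * M0 ≤ Real.exp (-1) := by
    have h5 : 2 * B / M * M0 ≤ 1 / 3 := by
      rw [div_mul_eq_mul_div, div_le_div_iff₀ hMp (by norm_num)]
      nlinarith
    refine h5.trans ?_
    rw [Real.exp_neg, ← one_div]
    apply one_div_le_one_div_of_le (Real.exp_pos _)
    linarith [Real.exp_one_lt_d9]
  have h5 : (2 * B / M * M0) ^ k ≤ Real.exp (-(k : ℝ)) := by
    refine (pow_le_pow_left₀ (by positivity) h4 k).trans (le_of_eq ?_)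
    rw [← Real.exp_nat_mul]
    congr 1
    ring
  have h6 : Real.exp (-(k : ℝ)) ≤ M * Real.exp (-J / M) := by
    have h7 : Real.exp (-(k : ℝ)) ≤ Real.exp (1 + -J / M) := by
      apply Real.exp_le_exp.2
      rw [neg_div]
      linarith
    refine h7.trans ?_
    rw [Real.exp_add]
    refine mul_le_mul_of_nonneg_right ?_ (Real.exp_pos _).le
    linarith [Real.exp_one_lt_d9]
  calc _ ≤ S 0 := h0
    _ ≤ _ := h2
    _ ≤ _ := h3
    _ ≤ Real.exp (-(k : ℝ)) * Y := mul_le_mul_of_nonneg_right h5 hc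
    _ ≤ _ := mul_le_mul_of_nonneg_right h6 hc

end Pool.Agent.H829D
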