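import Pool.Agent.H829D.Link
import Pool.Agent.H829D.Obst

/-!
# Cutting a walk at a time
-/

set_option autoImplicit false

namespace Pool.Agent.H829D

open Finset H726.GD
open scoped Classical

variable {d : ℕ}

/-- the number of contacts -/
noncomputable def ct (w w' : List (Fin d → ℤ)) : ℕ :=
  ((w.toFinset ×ˢ w'.toFinset).filter (fun x => x.1 ≠ 0 ∧ x.2 ≠ 0 ∧ Adj x.1 x.2)).card

/-- the walks -/
noncomputable abbrev KK (d n : ℕ) : Finset (List (Fin d → ℤ)) := Kw Adj n

theorem mem_KK {n : ℕ} {w : List (Fin d → ℤ)} : w ∈ KK d n ↔ w.length = n + 1 ∧ Walk Adj w :=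
  (rl0 lat).mem_K

/-- the number of contacts between the past and the future of the time `p` -/
noncomputable def cp (p : ℕ) (u : List (Fin d → ℤ)) : ℕ :=
  (((u.take p).toFinset ×ˢ (u.drop (p + 1)).toFinset).filter (fun x => Adj x.1 x.2)).card

/-- the reversed past -/
def hd (p : ℕ) (u : List (Fin d → ℤ)) : List (Fin d → ℤ) :=
  ((u.take (p + 1)).reverse).map (fun x => x - u.getD p 0)

/-- the future -/
def tl (p : ℕ) (u : List (Fin d → ℤ)) : List (Fin d → ℤ) :=
  (u.drop p).map (fun x => x - u.getD p 0)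

theorem cut {p q : ℕ} {v : List (Fin d → ℤ)} (h : v.length = p + q + 1) :
    ∃ L c R, v = L ++ c :: R ∧ L.length = p ∧ R.length = q := by
  have h1 : v.drop p ≠ [] := by
    intro h2
    have := congrArg List.length h2
    simp at this
    omega
  obtain ⟨c, R, h2⟩ := List.exists_cons_of_ne_nil h1
  refine ⟨v.take p, c, R, ?_, ?_, ?_⟩
  · rw [← h2, List.take_append_drop]
  · simp; omega
  · have := congrArg List.length h2
    simp at this
    omega

theorem cut_eq {p : ℕ} {L R : List (Fin d → ℤ)} {c : Fin d → ℤ} (hL : L.length = p) :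
    (L ++ c :: R).getD p 0 = c ∧ (L ++ c :: R).take p = L ∧ (L ++ c :: R).take (p + 1) = L ++ [c] ∧
    (L ++ c :: R).drop p = c :: R ∧ (L ++ c :: R).drop (p + 1) = R := by
  subst hL
  refine ⟨?_, ?_, ?_, ?_, ?_⟩
  · simp
  · simp
  · rw [List.take_length_add_append]; simp
  · simp
  · rw [List.drop_length_add_append]; simp

theorem adj_sub {x y c : Fin d → ℤ} : Adj (x - c) (y - c) ↔ Adj x y := by
  unfold Adj
  simp

theorem chain_sub {l : List (Fin d → ℤ)} (h : l.IsChain Adj) (c : Fin d → ℤ) :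
    (l.map (fun x => x - c)).IsChain Adj := by
  rw [List.isChain_map]
  exact h.imp fun _ _ hab => adj_sub.2 hab

theorem chain_rev {l : List (Fin d → ℤ)} (h : l.IsChain Adj) : l.reverse.IsChain Adj := by
  rw [List.isChain_reverse]
  exact h.imp fun _ _ hab => adj_symm hab

theorem sub_inj (c : Fin d → ℤ) : Function.Injective (fun x : Fin d → ℤ => x - c) :=
  fun _ _ h => sub_left_injective h

theorem cut_walk {p q : ℕ} {v : List (Fin d → ℤ)} (hv : v ∈ KK d (p + q)) :
    hd p v ∈ KK d p ∧ tl p v ∈ KK d q ∧ (∀ x ∈ hd p v, x ∈ tl p v → x = 0) ∧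
      cp p v ≤ ct (hd p v) (tl p v) ∧ v.take (p + 1) ∈ KK d p := by
  rw [mem_KK] at hv
  obtain ⟨hv1, hv2, hv3, hv4⟩ := hv
  obtain ⟨L, c, R, rfl, hL, hR⟩ := cut hv1
  obtain ⟨e1, e2, e3, e4, e5⟩ := cut_eq (c := c) (R := R) hL
  have hh : hd p (L ++ c :: R) = 0 :: (L.reverse.map (fun x => x - c)) := by
    unfold hd
    rw [e1, e3]
    simp
  have ht : tl p (L ++ c :: R) = 0 :: (R.map (fun x => x - c)) := by
    unfold tl
    rw [e1, e4]
    simp
  rw [List.nodup_append] at hv3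
  obtain ⟨n1, n2, n3⟩ := hv3
  rw [List.nodup_cons] at n2
  have cL : c ∉ L := fun h => n3 c h c (by simp) rfl
  have hch : (L ++ [c]).IsChain Adj := by
    refine chain_mid hv4 ⟨[], R, by simp⟩
  have hcR : (c :: R).IsChain Adj := by
    refine chain_mid hv4 ⟨L, [], by simp⟩
  refine ⟨?_, ?_, ?_, ?_, ?_⟩
  · rw [mem_KK]
    refine ⟨?_, ?_, ?_, ?_⟩
    · rw [hh]; simp [hL]
    · rw [hh]; rfl
    · rw [hh, List.nodup_cons]
      refine ⟨?_, (List.nodup_reverse.2 n1).map (sub_inj c)⟩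
      intro h
      rw [List.mem_map] at h
      obtain ⟨x, hx, hx'⟩ := h
      rw [List.mem_reverse] at hx
      rw [sub_eq_zero] at hx'
      exact cL (hx' ▸ hx)
    · unfold hd
      rw [e1, e3]
      exact chain_sub (chain_rev hch) c
  · rw [mem_KK]
    refine ⟨?_, ?_, ?_, ?_⟩
    · rw [ht]; simp [hR]
    · rw [ht]; rfl
    · rw [ht, List.nodup_cons]
      refine ⟨?_, n2.2.map (sub_inj c)⟩
      intro h
      rw [List.mem_map] at h
      obtain ⟨x, hx, hx'⟩ := h
      rw [sub_eq_zero] at hx'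
      exact n2.1 (hx' ▸ hx)
    · unfold tl
      rw [e1, e4]
      exact chain_sub hcR c
  · intro x hx hx'
    rw [hh, List.mem_cons, List.mem_map] at hx
    rw [ht, List.mem_cons, List.mem_map] at hx'
    rcases hx with rfl | ⟨a, ha, rfl⟩
    · rfl
    rcases hx' with hx' | ⟨b, hb, hb'⟩
    · exact hx'
    · exfalso
      have : b = a := sub_inj c hb'
      subst this
      rw [List.mem_reverse] at ha
      exact n3 b ha b (by simp [hb]) rfl
  · unfold cp ct
    rw [e2, e5, hh, ht]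
    refine Finset.card_le_card_of_injOn (fun x => (x.1 - c, x.2 - c)) ?_ ?_
    · rintro ⟨x, y⟩ h
      rw [Finset.mem_coe, Finset.mem_filter, Finset.mem_product, List.mem_toFinset,
        List.mem_toFinset] at h
      obtain ⟨⟨h1, h2⟩, h3⟩ := h
      simp only at h1 h2 h3
      rw [Finset.mem_coe, Finset.mem_filter, Finset.mem_product, List.mem_toFinset,
        List.mem_toFinset]
      refine ⟨⟨?_, ?_⟩, ?_, ?_, adj_sub.2 h3⟩
      · exact List.mem_cons_of_mem _ (List.mem_map.2 ⟨x, List.mem_reverse.2 h1, rfl⟩)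
      · exact List.mem_cons_of_mem _ (List.mem_map.2 ⟨y, h2, rfl⟩)
      · intro h
        exact cL ((sub_eq_zero.1 h) ▸ h1)
      · intro h
        exact n2.1 ((sub_eq_zero.1 h) ▸ h2)
    · rintro ⟨x, y⟩ - ⟨x', y'⟩ - h
      simp only [Prod.mk.injEq] at h
      exact Prod.ext (sub_inj c h.1) (sub_inj c h.2)
  · rw [mem_KK, e3]
    refine ⟨by simp [hL], ?_, ?_, hch⟩
    · rcases L with _ | ⟨a, L⟩
      · simpa using hv2
      · simpa using hv2
    · rw [List.nodup_append]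
      refine ⟨n1, by simp, ?_⟩
      intro a ha b hb hab
      simp only [List.mem_singleton] at hb
      subst hb hab
      exact cL ha

theorem map_sub_eq {l l' : List (Fin d → ℤ)} {c : Fin d → ℤ}
    (h : l.map (fun x => x - c) = l'.map (fun x => x - c)) : l = l' :=
  List.map_injective_iff.2 (sub_inj c) h

theorem cut_inj {p q : ℕ} {v v' : List (Fin d → ℤ)} (hv : v ∈ KK d (p + q)) (hv' : v' ∈ KK d (p + q))
    (h1 : hd p v = hd p v') (h2 : tl p v = tl p v') : v = v' := by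
  rw [mem_KK] at hv hv'
  obtain ⟨L, c, R, rfl, hL, hR⟩ := cut hv.1
  obtain ⟨L', c', R', rfl, hL', hR'⟩ := cut hv'.1
  obtain ⟨e1, e2, e3, e4, e5⟩ := cut_eq (c := c) (R := R) hL
  obtain ⟨f1, f2, f3, f4, f5⟩ := cut_eq (c := c') (R := R') hL'
  have key : ∀ (L R : List (Fin d → ℤ)) (c : Fin d → ℤ), (L ++ c :: R).head? = some 0 →
      (((L ++ [c]).reverse).map (fun x => x - c)).getLast? = some (0 - c) := by
    intro L R c h
    rw [List.getLast?_map, List.getLast?_reverse]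
    rcases L with _ | ⟨a, L⟩
    · simp only [List.nil_append, List.head?_cons, Option.some.injEq] at h
      subst h
      rfl
    · simp only [List.cons_append, List.head?_cons, Option.some.injEq] at h
      subst h
      rfl
  unfold hd at h1
  unfold tl at h2
  rw [e1, f1, e3, f3] at h1
  rw [e1, f1, e4, f4] at h2
  have h3 := key L R c hv.2.1
  have h4 := key L' R' c' hv'.2.1
  rw [h1, h4] at h3
  simp only [Option.some.injEq, sub_right_inj] at h3
  subst h3
  have h5 := List.reverse_injective (map_sub_eq h1)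
  have h6 := map_sub_eq h2
  have h7 := List.append_inj_left' h5 rfl
  rw [h7, h6]

theorem cut_inj' {p q : ℕ} {v v' : List (Fin d → ℤ)} (hv : v ∈ KK d (p + q)) (hv' : v' ∈ KK d (p + q))
    (h1 : v.take (p + 1) = v'.take (p + 1)) (h2 : tl p v = tl p v') : v = v' := by
  rw [mem_KK] at hv hv'
  obtain ⟨L, c, R, rfl, hL, hR⟩ := cut hv.1
  obtain ⟨L', c', R', rfl, hL', hR'⟩ := cut hv'.1
  obtain ⟨e1, e2, e3, e4, e5⟩ := cut_eq (c := c) (R := R) hL
  obtain ⟨f1, f2, f3, f4, f5⟩ := cut_eq (c := c') (R := R') hL'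
  unfold tl at h2
  rw [e3, f3] at h1
  rw [e1, f1, e4, f4] at h2
  obtain ⟨h3, h4⟩ := List.append_inj' h1 rfl
  simp only [List.cons.injEq, and_true] at h4
  subst h4
  rw [h3, map_sub_eq h2]

/-- cutting in two walks -/
theorem sum_pair (p q : ℕ) (h : ℕ → ℝ) (h0 : ∀ k, 0 ≤ h k) (hm : Monotone h) :
    ∑ v ∈ KK d (p + q), h (cp p v) ≤
      ∑ x ∈ (KK d p ×ˢ KK d q).filter (fun x => ∀ y ∈ x.1, y ∈ x.2 → y = 0), h (ct x.1 x.2) := by
  have h1 : ∑ v ∈ KK d (p + q), h (cp p v) ≤ ∑ v ∈ KK d (p + q), h (ct (hd p v) (tl p v)) :=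
    Finset.sum_le_sum fun v hv => hm (cut_walk hv).2.2.2.1
  refine h1.trans ?_
  have h2 : ∑ v ∈ KK d (p + q), h (ct (hd p v) (tl p v)) =
      ∑ x ∈ (KK d (p + q)).image (fun v => (hd p v, tl p v)), h (ct x.1 x.2) := by
    rw [Finset.sum_image]
    intro v hv v' hv' he
    simp only [Prod.mk.injEq] at he
    exact cut_inj hv hv' he.1 he.2
  rw [h2]
  refine Finset.sum_le_sum_of_subset_of_nonneg ?_ fun x _ _ => h0 _
  intro x hx
  rw [Finset.mem_image] at hx
  obtain ⟨v, hv, rfl⟩ := hx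
  have h3 := cut_walk hv
  rw [Finset.mem_filter, Finset.mem_product]
  exact ⟨⟨h3.1, h3.2.1⟩, h3.2.2.1⟩

/-- cutting in two pieces -/
theorem sum_split (a b : ℕ) (f g : List (Fin d → ℤ) → ℝ) (hf : ∀ u, 0 ≤ f u) (hg : ∀ u, 0 ≤ g u) :
    ∑ v ∈ KK d (a + b), f (v.take (a + 1)) * g (tl a v) ≤ (∑ u ∈ KK d a, f u) * ∑ u ∈ KK d b, g u := by
  rw [Finset.sum_mul_sum, ← Finset.sum_product']
  have h2 : ∑ v ∈ KK d (a + b), f (v.take (a + 1)) * g (tl a v) =
      ∑ x ∈ (KK d (a + b)).image (fun v => (v.take (a + 1), tl a v)), f x.1 * g x.2 := by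
    rw [Finset.sum_image]
    intro v hv v' hv' he
    simp only [Prod.mk.injEq] at he
    exact cut_inj' hv hv' he.1 he.2
  rw [h2]
  refine Finset.sum_le_sum_of_subset_of_nonneg ?_ fun x _ _ => mul_nonneg (hf _) (hg _)
  intro x hx
  rw [Finset.mem_image] at hx
  obtain ⟨v, hv, rfl⟩ := hx
  have h3 := cut_walk hv
  rw [Finset.mem_product]
  exact ⟨h3.2.2.2.2, h3.2.1⟩

/-- cutting in two walks, general weights -/
theorem sum_pairG (p q : ℕ) (F : List (Fin d → ℤ) → ℝ)
    (G : List (Fin d → ℤ) × List (Fin d → ℤ) → ℝ) (hG : ∀ x, 0 ≤ G x)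
    (h : ∀ v ∈ KK d (p + q), F v ≤ G (hd p v, tl p v)) :
    ∑ v ∈ KK d (p + q), F v ≤
      ∑ x ∈ (KK d p ×ˢ KK d q).filter (fun x => ∀ y ∈ x.1, y ∈ x.2 → y = 0), G x := by
  refine (Finset.sum_le_sum h).trans ?_
  have h2 : ∑ v ∈ KK d (p + q), G (hd p v, tl p v) =
      ∑ x ∈ (KK d (p + q)).image (fun v => (hd p v, tl p v)), G x := by
    rw [Finset.sum_image]
    intro v hv v' hv' he
    simp only [Prod.mk.injEq] at he
    exact cut_inj hv hv' he.1 he.2
  rw [h2]
  refine Finset.sum_le_sum_of_subset_of_nonneg ?_ fun x _ _ => hG _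
  intro x hx
  rw [Finset.mem_image] at hx
  obtain ⟨v, hv, rfl⟩ := hx
  have h3 := cut_walk hv
  rw [Finset.mem_filter, Finset.mem_product]
  exact ⟨⟨h3.1, h3.2.1⟩, h3.2.2.1⟩

end Pool.Agent.H829D
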