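import Pool.Agent.H829C.Link

/-!
# Directions, and the relations of two paths when there is no room for a local change
-/

set_option autoImplicit false
set_option synthInstance.maxSize 100000
set_option maxRecDepth 100000

namespace Pool.Agent.H829D

/-- the unit vectors of `ℤ^d`, coded by a finite type -/
structure Dr (d : ℕ) (D : Type) where
  vec : D → (Fin d → ℤ)
  ng : D → D
  ng_ng : ∀ f, ng (ng f) = f
  vec_ng : ∀ f, vec (ng f) = -vec f
  vec_le : ∀ f i, |vec f i| ≤ 1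
  vec_inj : ∀ f g, vec f = vec g → f = g
  vec_ne : ∀ f, vec f ≠ 0
  norm : ∀ f, ∑ j : Fin d, |vec f j| = 1
  all : ∀ v : Fin d → ℤ, ∑ j : Fin d, |v j| = 1 → ∃ f, v = vec f

variable {d : ℕ} {D : Type}

/-- the relations between a path `(P, E)` and an obstacle `P'` when there is no room for a local
change -/
structure Rel (V : Dr d D) (N P P' : (Fin d → ℤ) → Prop) (E : (Fin d → ℤ) → D → Prop) : Prop where
  out : ∀ x f, E x f → P (x + V.vec f)
  two : ∀ x, N x → P x → ∃ f g, f ≠ g ∧ E x f ∧ E x g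
  nW : ∀ (p a : Fin d → ℤ) (g u : D), N p → P' p → a = p + V.vec g → P a → E a u → u ≠ g →
    u ≠ V.ng g → P (p + V.vec u)
  nF : ∀ (p a b : Fin d → ℤ) (f u : D), N p → P' p → a = p + V.vec f → b = p + V.vec u → u ≠ f →
    u ≠ V.ng f → E a u → E b f → False

variable {V : Dr d D} {N P P' : (Fin d → ℤ) → Prop} {E E' : (Fin d → ℤ) → D → Prop}

theorem Rel.next (H : Rel V N P P' E) (dis : ∀ x, P x → P' x → False) {p : Fin d → ℤ} {g : D}
    (hp : N p) (hp' : P' p) (hg : P (p + V.vec g)) (hn : N (p + V.vec g)) :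
    ∃ u, u ≠ g ∧ u ≠ V.ng g ∧ E (p + V.vec g) u ∧ P (p + V.vec u) := by
  obtain ⟨f1, f2, h12, e1, e2⟩ := H.two _ hn hg
  have key : ∀ f, E (p + V.vec g) f → f ≠ V.ng g := by
    intro f hf h
    subst h
    have h1 := H.out _ _ hf
    rw [V.vec_ng, add_neg_cancel_right] at h1
    exact dis _ h1 hp'
  by_cases h : f1 = g
  · have h2 : f2 ≠ g := fun h3 => h12 (h.trans h3.symm)
    exact ⟨f2, h2, key _ e2, e2, H.nW p _ g f2 hp hp' rfl hg e2 h2 (key _ e2)⟩
  · exact ⟨f1, h, key _ e1, e1, H.nW p _ g f1 hp hp' rfl hg e1 h (key _ e1)⟩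

theorem fd (H' : Rel V N P' P E') {s : Fin d → ℤ} (n1 : ∀ f, N (s + V.vec f)) (hs : P' s)
    {v f : D} (hv : E' s v) (h1 : v ≠ f) (h2 : v ≠ V.ng f) (hf : P (s + V.vec f)) :
    P' (s + V.vec f + V.vec v) := by
  refine H'.nW (s + V.vec f) s (V.ng f) v (n1 f) hf ?_ hs hv h2 ?_
  · rw [V.vec_ng, add_neg_cancel_right]
  · rw [V.ng_ng]; exact h1

theorem fe (H' : Rel V N P' P E') {s : Fin d → ℤ} (n1 : ∀ f, N (s + V.vec f))
    {v f : D} (hv : E' s v) (h1 : v ≠ f) (h2 : v ≠ V.ng f) (hf : P (s + V.vec f)) :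
    ¬ E' (s + V.vec f + V.vec v) (V.ng f) := by
  intro h
  refine H'.nF (s + V.vec f) s _ (V.ng f) v (n1 f) hf ?_ rfl h2 ?_ hv h
  · rw [V.vec_ng, add_neg_cancel_right]
  · rw [V.ng_ng]; exact h1

/-- a dimension in which every contact gives room for a local change -/
def Good (V : Dr d D) : Prop := ∀ (N P P' : (Fin d → ℤ) → Prop) (E E' : (Fin d → ℤ) → D → Prop),
  Rel V N P P' E → Rel V N P' P E' → (∀ x, P x → P' x → False) →
  ∀ s : Fin d → ℤ, N s → (∀ f, N (s + V.vec f)) → (∀ f g, N (s + V.vec f + V.vec g)) →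
    (∀ f g h, N (s + V.vec f + V.vec g + V.vec h)) → P' s → ∀ f : D, P (s + V.vec f) → False

/-! ### the plane -/

/-- the four unit vectors -/
def vec2 : Fin 4 → (Fin 2 → ℤ) := ![![1, 0], ![0, 1], ![-1, 0], ![0, -1]]

theorem key2 (a b : ℤ) (h : |a| + |b| = 1) : ∃ f : Fin 4, ![a, b] = vec2 f := by
  have ha : |a| ≤ 1 := by have := abs_nonneg b; omega
  have hb : |b| ≤ 1 := by have := abs_nonneg a; omega
  rw [abs_le] at ha hb
  obtain ⟨ha1, ha2⟩ := ha
  obtain ⟨hb1, hb2⟩ := hb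
  interval_cases a <;> interval_cases b <;> first
    | (exfalso; revert h; decide)
    | exact ⟨0, by decide⟩
    | exact ⟨1, by decide⟩
    | exact ⟨2, by decide⟩
    | exact ⟨3, by decide⟩

/-- the directions of the plane -/
def V2 : Dr 2 (Fin 4) where
  vec := vec2
  ng := fun f => f + 2
  ng_ng := by decide
  vec_ng := by decide
  vec_le := by decide
  vec_inj := by decide
  vec_ne := by decide
  norm := by decide
  all := by
    intro v h
    rw [Fin.sum_univ_two] at h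
    obtain ⟨f, hf⟩ := key2 _ _ h
    refine ⟨f, ?_⟩
    rw [← hf]
    ext i
    fin_cases i <;> simp

theorem e1 : ∀ v w : Fin 4, v ≠ w → ∀ f : Fin 4, f ≠ v → f ≠ w → ∀ u : Fin 4, u ≠ f → u ≠ f + 2 →
    u ≠ v → u ≠ w → ∀ g : Fin 4, g ≠ u → g ≠ u + 2 → g ≠ v → g ≠ w → g = f := by
  decide

theorem good2 : Good V2 := by
  intro N P P' E E' H H' dis s n0 n1 n2 n3 hs f hf
  obtain ⟨v, w, hvw, e2, e3⟩ := H'.two s n0 hs
  have X1 : ∀ g, P (s + V2.vec g) → g ≠ v := by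
    rintro g hg rfl
    exact dis _ hg (H'.out _ _ e2)
  have X2 : ∀ g, P (s + V2.vec g) → g ≠ w := by
    rintro g hg rfl
    exact dis _ hg (H'.out _ _ e3)
  obtain ⟨u, b1, b2, b3, b4⟩ := H.next dis n0 hs hf (n1 f)
  obtain ⟨g, c1, c2, c3, c4⟩ := H.next dis n0 hs b4 (n1 u)
  have c5 := e1 v w hvw f (X1 f hf) (X2 f hf) u b1 b2 (X1 u b4) (X2 u b4) g c1 c2 (X1 g c4)
    (X2 g c4)
  subst c5
  exact H.nF s _ _ g u n0 hs rfl rfl b1 b2 b3 c3

/-! ### three dimensions -/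

/-- the directions of `ℤ³` -/
def V3 : Dr 3 (Fin 6) where
  vec := H829C.vec
  ng := fun f => f + 3
  ng_ng := H829C.add33
  vec_ng := H829C.vec_neg
  vec_le := H829C.vec_le
  vec_inj := H829C.vec_inj
  vec_ne := H829C.vec_ne
  norm := H829C.vec_norm
  all := by
    intro v h
    have h1 : H829C.Adj 0 v := by
      unfold H829C.Adj
      simpa using h
    obtain ⟨f, hf⟩ := H829C.adj_iff h1
    exact ⟨f, by rw [hf, zero_add]⟩

theorem good3 : Good V3 := by
  intro N P P' E E' H H' dis s n0 n1 n2 n3 hs f hf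
  exact H829C.loc ⟨H.out, H.two, H.nW, H.nF⟩ ⟨H'.out, H'.two, H'.nW, H'.nF⟩ dis n0 n1 n2 n3 hs hf

end Pool.Agent.H829D
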