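import Pool.Agent.H829D.Pair

/-!
# Walks with attraction between adjacent sites: almost submultiplicativity for weak attraction
-/

set_option autoImplicit false

namespace Pool.Agent.H829D

open Finset H726.GD Filter Topology
open scoped Classical

variable {d : ℕ} {D : Type}

/-- the number of ordered pairs of adjacent sites -/
noncomputable def ef (S : Finset (Pt d)) : ℕ := ((S ×ˢ S).filter (fun x => Adj x.1 x.2)).card

theorem adj_box {x y : Pt d} (h : Adj x y) : y ∈ box x 1 := by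
  rw [mem_box]
  intro i
  exact_mod_cast lat.step x y h i

theorem ef_le (S T : Finset (Pt d)) : ef S ≤ ef T + 2 * 3 ^ d * (S \ T).card := by
  have hsub : (S ×ˢ S).filter (fun x => Adj x.1 x.2) ⊆
      ((T ×ˢ T).filter (fun x => Adj x.1 x.2) ∪
        (S \ T).biUnion (fun x => (box x 1).image (fun y => (x, y)))) ∪
        (S \ T).biUnion (fun y => (box y 1).image (fun x => (x, y))) := by
    rintro ⟨x, y⟩ h
    rw [Finset.mem_filter, Finset.mem_product] at h
    obtain ⟨⟨h1, h2⟩, h3⟩ := h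
    simp only at h1 h2 h3
    rw [Finset.mem_union, Finset.mem_union, Finset.mem_biUnion, Finset.mem_biUnion]
    by_cases hx : x ∈ T
    · by_cases hy : y ∈ T
      · left; left
        rw [Finset.mem_filter, Finset.mem_product]
        exact ⟨⟨hx, hy⟩, h3⟩
      · right
        exact ⟨y, Finset.mem_sdiff.2 ⟨h2, hy⟩,
          Finset.mem_image.2 ⟨x, adj_box (adj_symm h3), rfl⟩⟩
    · left; right
      exact ⟨x, Finset.mem_sdiff.2 ⟨h1, hx⟩, Finset.mem_image.2 ⟨y, adj_box h3, rfl⟩⟩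
  have h1 := Finset.card_le_card hsub
  have h2 := Finset.card_union_le ((T ×ˢ T).filter (fun x => Adj x.1 x.2) ∪
        (S \ T).biUnion (fun x => (box x 1).image (fun y => (x, y))))
        ((S \ T).biUnion (fun y => (box y 1).image (fun x => (x, y))))
  have h3 := Finset.card_union_le ((T ×ˢ T).filter (fun x => Adj x.1 x.2))
        ((S \ T).biUnion (fun x => (box x 1).image (fun y => (x, y))))
  have h4 := Finset.card_biUnion_le_card_mul (S \ T)
    (fun x => (box x 1).image (fun y => (x, y))) (3 ^ d)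
    (fun s _ => Finset.card_image_le.trans (by rw [card_box]))
  have h5 := Finset.card_biUnion_le_card_mul (S \ T)
    (fun y => (box y 1).image (fun x => (x, y))) (3 ^ d)
    (fun s _ => Finset.card_image_le.trans (by rw [card_box]))
  unfold ef
  have h6 : 2 * 3 ^ d * (S \ T).card = (S \ T).card * 3 ^ d + (S \ T).card * 3 ^ d := by ring
  omega

/-- the weight -/
noncomputable def wt (γ : ℝ) (w : List (Pt d)) : ℝ := Real.exp (γ * ef w.toFinset)

theorem wt_pos (γ : ℝ) (w : List (Pt d)) : 0 < wt γ w := Real.exp_pos _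

theorem wt_le {γ : ℝ} (h0 : 0 ≤ γ) (h1 : γ ≤ 1) {v w : List (Pt d)} {k : ℕ}
    (h : (v.toFinset \ w.toFinset).card ≤ k) :
    wt γ v ≤ Real.exp (2 * 3 ^ d * k) * wt γ w := by
  unfold wt
  rw [← Real.exp_add]
  apply Real.exp_le_exp.2
  have h2 := ef_le v.toFinset w.toFinset
  have h3 : (ef v.toFinset : ℝ) ≤ ef w.toFinset + 2 * 3 ^ d * k := by
    have h4 : ef v.toFinset ≤ ef w.toFinset + 2 * 3 ^ d * k :=
      h2.trans (Nat.add_le_add_left (Nat.mul_le_mul_left _ h) _)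
    exact_mod_cast h4
  have h5 : (0 : ℝ) ≤ 2 * 3 ^ d * k := by positivity
  nlinarith

theorem wt_rep {γ : ℝ} (h0 : 0 ≤ γ) (h1 : γ ≤ 1) {a s : ℕ} (ha : a ≤ 3) (w : List (Pt d))
    (q : List (Pt d) × List (Pt d)) (hw : Walk Adj w) (hq : q ∈ (gr d a s).S w) :
    wt γ w ≤ Real.exp (2 * 3 ^ d * (3 : ℕ)) * wt γ (Rl.rep w q.1 q.2) := by
  apply wt_le h0 h1
  obtain ⟨U, U'⟩ := q
  rw [(gr d a s).mem_S] at hq
  obtain ⟨hT, hF⟩ := hq
  obtain ⟨L, R, h3, h4, -⟩ := Rl.rep_all ((gr d a s).pair _ _ hT) hw hF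
  have hl := (gr d a s).len _ _ hT
  simp only at h3 h4 hl ⊢
  rw [h4]
  have hsub : w.toFinset \ (L ++ U' ++ R).toFinset ⊆ U.toFinset := by
    intro x hx
    rw [Finset.mem_sdiff, List.mem_toFinset, List.mem_toFinset, h3] at hx
    simp only [List.mem_append, not_or] at hx
    rw [List.mem_toFinset]
    tauto
  have h5 := Finset.card_le_card hsub
  have h6 := List.toFinset_card_le U
  have h7 : (gr d a s).k = a := rfl
  omega

/-- the partition function -/
noncomputable def Y (d : ℕ) (γ : ℝ) (n : ℕ) : ℝ := ∑ w ∈ KK d n, wt γ w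

theorem Y_nonneg (γ : ℝ) (n : ℕ) : 0 ≤ Y d γ n := Finset.sum_nonneg fun w _ => (wt_pos γ w).le

theorem Y_two {γ : ℝ} (h0 : 0 ≤ γ) (h1 : γ ≤ 1) (n : ℕ) :
    Y d γ (n + 2) ≤ (Real.exp (2 * 3 ^ d * (2 : ℕ)) * (KK d 2).card) * Y d γ n := by
  have h2 : Y d γ (n + 2) ≤ ∑ v ∈ KK d (n + 2), (Real.exp (2 * 3 ^ d * (2 : ℕ)) *
      wt γ (v.take (n + 1))) * (fun _ => (1 : ℝ)) (tl n v) := by
    refine Finset.sum_le_sum fun v hv => ?_
    rw [mem_KK] at hv
    rw [mul_one]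
    apply wt_le h0 h1
    have hsub : v.toFinset \ (v.take (n + 1)).toFinset ⊆ (v.drop (n + 1)).toFinset := by
      intro x hx
      rw [Finset.mem_sdiff, List.mem_toFinset, List.mem_toFinset] at hx
      rw [List.mem_toFinset]
      have h3 := hx.1
      rw [← List.take_append_drop (n + 1) v, List.mem_append] at h3
      tauto
    have h5 := Finset.card_le_card hsub
    have h6 := List.toFinset_card_le (v.drop (n + 1))
    rw [List.length_drop] at h6
    omega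
  refine h2.trans ?_
  have h3 := sum_split n 2 (fun u => Real.exp (2 * 3 ^ d * (2 : ℕ)) * wt (d := d) γ u)
    (fun _ => (1 : ℝ)) (fun u => mul_nonneg (Real.exp_pos _).le (wt_pos _ _).le)
    (fun _ => zero_le_one)
  refine h3.trans (le_of_eq ?_)
  rw [← Finset.mul_sum, Finset.sum_const, nsmul_eq_mul, mul_one]
  unfold Y
  ring

theorem Y_step {γ : ℝ} (h0 : 0 ≤ γ) (h1 : γ ≤ 1) (n k : ℕ) :
    Y d γ (n + 2 * k) ≤ (Real.exp (2 * 3 ^ d * (2 : ℕ)) * (KK d 2).card) ^ k * Y d γ n := by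
  induction k with
  | zero => rw [Nat.mul_zero, Nat.add_zero, pow_zero, one_mul]
  | succ k ih =>
    have h3 : n + 2 * (k + 1) = n + 2 * k + 2 := by ring
    rw [h3]
    refine (Y_two h0 h1 (n + 2 * k)).trans ?_
    have h4 : 0 ≤ Real.exp (2 * 3 ^ d * (2 : ℕ)) * ((KK d 2).card : ℝ) :=
      mul_nonneg (Real.exp_pos _).le (Nat.cast_nonneg _)
    calc _ ≤ (Real.exp (2 * 3 ^ d * (2 : ℕ)) * ((KK d 2).card : ℝ)) *
          ((Real.exp (2 * 3 ^ d * (2 : ℕ)) * (KK d 2).card) ^ k * Y d γ n) :=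
          mul_le_mul_of_nonneg_left ih h4
      _ = _ := by rw [pow_succ]; ring

theorem ef_shift (S : Finset (Pt d)) (c : Pt d) : ef S ≤ ef (S.image (fun x => x - c)) := by
  unfold ef
  refine Finset.card_le_card_of_injOn (fun x => (x.1 - c, x.2 - c)) ?_ ?_
  · rintro ⟨x, y⟩ h
    rw [Finset.mem_coe, Finset.mem_filter, Finset.mem_product] at h
    rw [Finset.mem_coe, Finset.mem_filter, Finset.mem_product]
    exact ⟨⟨Finset.mem_image.2 ⟨x, h.1.1, rfl⟩, Finset.mem_image.2 ⟨y, h.1.2, rfl⟩⟩, adj_sub.2 h.2⟩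
  · rintro ⟨x, y⟩ - ⟨x', y'⟩ - h
    simp only [Prod.mk.injEq] at h
    exact Prod.ext (sub_inj c h.1) (sub_inj c h.2)

theorem ef_union {S T : Finset (Pt d)} (hS : 0 ∈ S) (hT : 0 ∈ T) :
    ef (S ∪ T) ≤ ef S + ef T +
      2 * ((S ×ˢ T).filter (fun x => x.1 ≠ 0 ∧ x.2 ≠ 0 ∧ Adj x.1 x.2)).card := by
  obtain ⟨C, hC⟩ : ∃ C, C = (S ×ˢ T).filter (fun x => x.1 ≠ 0 ∧ x.2 ≠ 0 ∧ Adj x.1 x.2) := ⟨_, rfl⟩
  rw [← hC]
  have hsub : ((S ∪ T) ×ˢ (S ∪ T)).filter (fun x => Adj x.1 x.2) ⊆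
      ((S ×ˢ S).filter (fun x => Adj x.1 x.2) ∪ (T ×ˢ T).filter (fun x => Adj x.1 x.2)) ∪
        (C ∪ C.image Prod.swap) := by
    rintro ⟨x, y⟩ h
    rw [Finset.mem_filter, Finset.mem_product, Finset.mem_union, Finset.mem_union] at h
    obtain ⟨⟨h1, h2⟩, h3⟩ := h
    simp only at h1 h2 h3
    rw [Finset.mem_union, Finset.mem_union, Finset.mem_union, Finset.mem_filter,
      Finset.mem_filter, Finset.mem_product, Finset.mem_product, Finset.mem_image, hC]
    by_cases a1 : x ∈ S <;> by_cases a2 : y ∈ S <;> by_cases a3 : x ∈ T <;> by_cases a4 : y ∈ T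
    · exact Or.inl (Or.inl ⟨⟨a1, a2⟩, h3⟩)
    · exact Or.inl (Or.inl ⟨⟨a1, a2⟩, h3⟩)
    · exact Or.inl (Or.inl ⟨⟨a1, a2⟩, h3⟩)
    · exact Or.inl (Or.inl ⟨⟨a1, a2⟩, h3⟩)
    · exact Or.inl (Or.inr ⟨⟨a3, a4⟩, h3⟩)
    · tauto
    · right; left
      rw [Finset.mem_filter, Finset.mem_product]
      refine ⟨⟨a1, a4⟩, ?_, ?_, h3⟩
      · rintro rfl; exact a3 hT
      · rintro rfl; exact a2 hS
    · tauto
    · exact Or.inl (Or.inr ⟨⟨a3, a4⟩, h3⟩)
    · right; right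
      refine ⟨(y, x), ?_, rfl⟩
      rw [Finset.mem_filter, Finset.mem_product]
      refine ⟨⟨a2, a3⟩, ?_, ?_, adj_symm h3⟩
      · rintro rfl; exact a4 hT
      · rintro rfl; exact a1 hS
    · tauto
    · tauto
    · exact Or.inl (Or.inr ⟨⟨a3, a4⟩, h3⟩)
    · tauto
    · tauto
    · tauto
  have h1 := Finset.card_le_card hsub
  have h2 := Finset.card_union_le ((S ×ˢ S).filter (fun x => Adj x.1 x.2) ∪
    (T ×ˢ T).filter (fun x => Adj x.1 x.2)) (C ∪ C.image Prod.swap)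
  have h3 := Finset.card_union_le ((S ×ˢ S).filter (fun x => Adj x.1 x.2))
    ((T ×ˢ T).filter (fun x => Adj x.1 x.2))
  have h4 := Finset.card_union_le C (C.image Prod.swap)
  have h5 : (C.image Prod.swap).card ≤ C.card := Finset.card_image_le
  unfold ef
  omega

theorem ef_cut {p q : ℕ} {v : List (Pt d)} (hv : v ∈ KK d (p + q)) :
    ef v.toFinset ≤ ef (hd p v).toFinset + ef (tl p v).toFinset + 2 * ct (hd p v) (tl p v) := by
  rw [mem_KK] at hv
  obtain ⟨hv1, hv2, hv3, hv4⟩ := hv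
  obtain ⟨L, c, R, rfl, hL, hR⟩ := cut hv1
  obtain ⟨e1, e2, e3, e4, e5⟩ := cut_eq (c := c) (R := R) hL
  have hh : hd p (L ++ c :: R) = 0 :: (L.reverse.map (fun x => x - c)) := by
    unfold hd
    rw [e1, e3]
    simp
  have ht : tl p (L ++ c :: R) = 0 :: (R.map (fun x => x - c)) := by
    unfold tl
    rw [e1, e4]
    simp
  have hun : (L ++ c :: R).toFinset.image (fun x => x - c) =
      (hd p (L ++ c :: R)).toFinset ∪ (tl p (L ++ c :: R)).toFinset := by
    ext x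
    rw [hh, ht]
    simp only [Finset.mem_image, List.mem_toFinset, Finset.mem_union, List.mem_append,
      List.mem_cons, List.mem_map, List.mem_reverse]
    constructor
    · rintro ⟨y, hy | hy | hy, rfl⟩
      · exact Or.inl (Or.inr ⟨y, hy, rfl⟩)
      · left; left; rw [hy, sub_self]
      · exact Or.inr (Or.inr ⟨y, hy, rfl⟩)
    · rintro ((rfl | ⟨y, hy, rfl⟩) | (rfl | ⟨y, hy, rfl⟩))
      · exact ⟨c, Or.inr (Or.inl rfl), sub_self c⟩
      · exact ⟨y, Or.inl hy, rfl⟩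
      · exact ⟨c, Or.inr (Or.inl rfl), sub_self c⟩
      · exact ⟨y, Or.inr (Or.inr hy), rfl⟩
  refine (ef_shift _ c).trans ?_
  rw [hun]
  refine ef_union ?_ ?_
  · rw [hh]; simp
  · rw [ht]; simp

/-- **Almost submultiplicativity for weak attraction.** -/
theorem submult {V : Dr d D} (hV : Good V) : ∃ γ0 K : ℝ, 0 < γ0 ∧ 1 ≤ K ∧ ∀ γ : ℝ, 0 ≤ γ →
    γ ≤ γ0 → ∀ p q : ℕ, Y d γ (p + q) ≤ K * (Y d γ p * Y d γ q) := by
  obtain ⟨K1, hK1, g⟩ := pairW hV (Real.exp (2 * 3 ^ d * (2 : ℕ)) * (KK d 2).card)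
    (Real.exp (2 * 3 ^ d * (3 : ℕ)))
    (mul_nonneg (Real.exp_pos _).le (Nat.cast_nonneg _)) (Real.exp_pos _).le
  refine ⟨min 1 (1 / (4 * K1)), K1 * (1 + 2 * K1), ?_, by nlinarith, fun γ h0 h1 p q => ?_⟩
  · apply lt_min one_pos
    positivity
  have hγ1 : γ ≤ 1 := h1.trans (min_le_left _ _)
  have hγ2 : γ ≤ 1 / (4 * K1) := h1.trans (min_le_right _ _)
  have hθ : 2 * γ ≤ 1 / (2 * K1) := by
    have : 1 / (2 * K1) = 2 * (1 / (4 * K1)) := by
      field_simp
      norm_num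
    rw [this]
    linarith
  have g1 := g (wt γ) (fun w => (wt_pos γ w).le)
    (fun w q hw hq => wt_rep h0 hγ1 (by norm_num) w q hw hq)
    (fun w q hw hq => wt_rep h0 hγ1 (by norm_num) w q hw hq)
    (fun n k => Y_step h0 hγ1 n k) p q
  have hYY : 0 ≤ Y d γ p * Y d γ q := mul_nonneg (Y_nonneg _ _) (Y_nonneg _ _)
  have g2 := momentW (fun w => (wt_pos γ w).le) hK1 hθ hYY g1
  refine le_trans ?_ g2
  refine sum_pairG p q (wt γ) (fun x => Real.exp (2 * γ * ct x.1 x.2) * (wt γ x.1 * wt γ x.2))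
    (fun x => mul_nonneg (Real.exp_pos _).le (mul_nonneg (wt_pos _ _).le (wt_pos _ _).le)) ?_
  intro v hv
  simp only
  unfold wt
  rw [← Real.exp_add, ← Real.exp_add]
  apply Real.exp_le_exp.2
  have h2 := ef_cut hv
  have h3 : (ef v.toFinset : ℝ) ≤ ef (hd p v).toFinset + ef (tl p v).toFinset +
      2 * ct (hd p v) (tl p v) := by exact_mod_cast h2
  have h4 := mul_le_mul_of_nonneg_left h3 h0
  linarith

/-- a straight walk -/
theorem KK_pos (V : Dr d D) (f : D) (n : ℕ) : (KK d n).Nonempty := by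
  refine ⟨(List.range (n + 1)).map (fun i : ℕ => (i : ℤ) • V.vec f), ?_⟩
  rw [mem_KK]
  refine ⟨by simp, ?_, ?_, ?_⟩
  · rw [List.range_succ_eq_map]
    simp
  · refine List.nodup_range.map ?_
    intro a b h
    have h1 : ((a : ℤ) - b) • V.vec f = 0 := by
      rw [sub_smul]
      exact sub_eq_zero.2 h
    rcases smul_eq_zero.1 h1 with h2 | h2
    · omega
    · exact absurd h2 (V.vec_ne f)
  · rw [List.isChain_iff_getElem]
    intro i hi
    rw [List.getElem_map, List.getElem_map, List.getElem_range, List.getElem_range]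
    push_cast
    rw [add_smul, one_smul]
    exact adj_vec V _ _

/-- Fekete -/
theorem fekete {y : ℕ → ℝ} {K : ℝ} (hK : 1 ≤ K) (hY1 : ∀ n, 1 ≤ y n)
    (g : ∀ p q, y (p + q) ≤ K * (y p * y q)) :
    ∃ L : ℝ, Tendsto (fun n : ℕ => Real.log (y n) / n) atTop (𝓝 L) := by
  have hp : ∀ n, 0 < y n := fun n => lt_of_lt_of_le one_pos (hY1 n)
  have hKp : 0 < K := by linarith
  have hsub : Subadditive (fun n => Real.log (K * y n)) := by
    intro m n
    rw [← Real.log_mul (mul_pos hKp (hp m)).ne' (mul_pos hKp (hp n)).ne']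
    apply Real.log_le_log (mul_pos hKp (hp _))
    calc K * y (m + n) ≤ K * (K * (y m * y n)) :=
          mul_le_mul_of_nonneg_left (g m n) hKp.le
      _ = _ := by ring
  have hbdd : BddBelow (Set.range fun n : ℕ => Real.log (K * y n) / n) := by
    refine ⟨0, ?_⟩
    rintro _ ⟨n, rfl⟩
    apply div_nonneg _ (Nat.cast_nonneg _)
    apply Real.log_nonneg
    have := hY1 n
    nlinarith
  refine ⟨hsub.lim, ?_⟩
  have h2 := hsub.tendsto_lim hbdd
  have h3 : Tendsto (fun n : ℕ => Real.log K / (n : ℝ)) atTop (𝓝 0) :=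
    tendsto_const_nhds.div_atTop tendsto_natCast_atTop_atTop
  have h4 := h2.sub h3
  rw [sub_zero] at h4
  refine h4.congr fun n => ?_
  rw [Real.log_mul hKp.ne' (hp n).ne', add_div]
  ring

theorem one_le_Y (V : Dr d D) (f0 : D) {γ : ℝ} (h0 : 0 ≤ γ) (n : ℕ) : 1 ≤ Y d γ n := by
  obtain ⟨w, hw⟩ := KK_pos V f0 n
  have h2 : wt γ w ≤ Y d γ n := Finset.single_le_sum (fun w _ => (wt_pos γ w).le) hw
  have h3 : 1 ≤ wt γ w := Real.one_le_exp (mul_nonneg h0 (Nat.cast_nonneg _))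
  linarith

/-- the limit exists -/
theorem limit_exists {V : Dr d D} (hV : Good V) (f0 : D) : ∃ γ0 : ℝ, 0 < γ0 ∧ ∀ γ : ℝ, 0 ≤ γ →
    γ ≤ γ0 → ∃ L : ℝ, Tendsto (fun n : ℕ => Real.log (Y d γ n) / n) atTop (𝓝 L) := by
  obtain ⟨γ0, K, hγ0, hK, g⟩ := submult hV
  exact ⟨γ0, hγ0, fun γ h0 h1 => fekete hK (one_le_Y V f0 h0) (g γ h0 h1)⟩

end Pool.Agent.H829D
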