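import Pool.Agent.H829D.Energy

/-!
# Walks as functions, and the number of contacts
-/

set_option autoImplicit false

namespace Pool.Agent.H829D

open Finset H726.GD Filter Topology
open scoped Classical

variable {d : ℕ} {D : Type}

/-- the self-avoiding walks on `ℤ^d` with `n` steps from the origin -/
def walks (d n : ℕ) : Set (Fin (n + 1) → (Fin d → ℤ)) :=
  {w | w 0 = 0 ∧ Function.Injective w ∧ ∀ i : Fin n, ∑ k : Fin d, |w i.succ k - w i.castSucc k| = 1}

/-- the number of contacts -/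
noncomputable def contacts {d n : ℕ} (w : Fin (n + 1) → (Fin d → ℤ)) : ℕ :=
  Set.ncard {p : Fin (n + 1) × Fin (n + 1) | p.1.val + 1 < p.2.val ∧
    ∑ k : Fin d, |w p.1 k - w p.2 k| = 1}

/-- the partition function -/
noncomputable def Z (d n : ℕ) (β : ℝ) : ℝ := ∑ᶠ w ∈ walks d n, Real.exp (β * contacts w)

theorem Y_eq (γ : ℝ) (n : ℕ) : Y d γ n = ∑ᶠ w ∈ walks d n, wt γ (List.ofFn w) :=
  H726.GD.fin_sum lat n (wt γ)

theorem ef_ofFn {n : ℕ} {w : Fin (n + 1) → (Fin d → ℤ)} (hw : w ∈ walks d n) :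
    ef (List.ofFn w).toFinset = 2 * (contacts w + n) := by
  obtain ⟨-, hinj, hadj⟩ := hw
  -- all pairs
  obtain ⟨A, hA⟩ : ∃ A : Finset (Fin (n + 1) × Fin (n + 1)),
    A = Finset.univ.filter (fun p => Adj (w p.1) (w p.2)) := ⟨_, rfl⟩
  obtain ⟨A1, hA1⟩ : ∃ A1 : Finset (Fin (n + 1) × Fin (n + 1)),
    A1 = Finset.univ.filter (fun p => p.1.val + 1 < p.2.val ∧ Adj (w p.1) (w p.2)) := ⟨_, rfl⟩
  obtain ⟨A2, hA2⟩ : ∃ A2 : Finset (Fin (n + 1) × Fin (n + 1)),
    A2 = (Finset.univ : Finset (Fin n)).image (fun i => (i.castSucc, i.succ)) := ⟨_, rfl⟩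
  have h1 : ef (List.ofFn w).toFinset = A.card := by
    unfold ef
    have e1 : ((List.ofFn w).toFinset ×ˢ (List.ofFn w).toFinset).filter (fun x => Adj x.1 x.2) =
        A.image (fun p => (w p.1, w p.2)) := by
      ext ⟨x, y⟩
      rw [Finset.mem_filter, Finset.mem_product, List.mem_toFinset, List.mem_toFinset,
        List.mem_ofFn, List.mem_ofFn, Finset.mem_image, hA]
      constructor
      · rintro ⟨⟨⟨i, hi⟩, ⟨j, hj⟩⟩, h⟩
        simp only at hi hj h
        subst hi hj
        exact ⟨(i, j), Finset.mem_filter.2 ⟨Finset.mem_univ _, h⟩, rfl⟩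
      · rintro ⟨⟨i, j⟩, h, h2⟩
        rw [Finset.mem_filter] at h
        simp only [Prod.mk.injEq] at h2
        obtain ⟨h3, h4⟩ := h2
        subst h3 h4
        exact ⟨⟨⟨i, rfl⟩, ⟨j, rfl⟩⟩, h.2⟩
    rw [e1, Finset.card_image_of_injective]
    rintro ⟨a, b⟩ ⟨a', b'⟩ h
    simp only [Prod.mk.injEq] at h
    exact Prod.ext (hinj h.1) (hinj h.2)
  have h2 : A1.card = contacts w := by
    unfold contacts
    rw [hA1, ← Set.ncard_coe_finset]
    congr 1
    ext p
    simp only [Finset.coe_filter, Finset.mem_univ, true_and, Set.mem_ofPred_eq]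
    refine and_congr_right fun _ => ?_
    unfold Adj
    rw [show (∑ j : Fin d, |w p.2 j - w p.1 j|) = ∑ k : Fin d, |w p.1 k - w p.2 k| from
      Finset.sum_congr rfl fun j _ => abs_sub_comm _ _]
  have h3 : A2.card = n := by
    rw [hA2, Finset.card_image_of_injective, Finset.card_univ, Fintype.card_fin]
    intro a b h
    simp only [Prod.mk.injEq] at h
    exact Fin.castSucc_injective n h.1
  have hdis : Disjoint A1 A2 := by
    rw [Finset.disjoint_left]
    intro p hp hp'
    rw [hA1, Finset.mem_filter] at hp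
    rw [hA2, Finset.mem_image] at hp'
    obtain ⟨i, -, rfl⟩ := hp'
    have := hp.2.1
    simp at this
  have hA12 : A = (A1 ∪ A2) ∪ (A1 ∪ A2).image Prod.swap := by
    ext ⟨i, j⟩
    rw [hA, Finset.mem_union, Finset.mem_union, Finset.mem_image, Finset.mem_filter]
    constructor
    · rintro ⟨-, h⟩
      simp only at h
      rcases lt_trichotomy i.1 j.1 with hij | hij | hij
      · left
        rcases Nat.lt_or_ge (i.1 + 1) j.1 with h5 | h5
        · left
          rw [hA1, Finset.mem_filter]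
          exact ⟨Finset.mem_univ _, h5, h⟩
        · right
          rw [hA2, Finset.mem_image]
          refine ⟨⟨i.1, by have := j.2; omega⟩, Finset.mem_univ _, ?_⟩
          refine Prod.ext (Fin.ext rfl) (Fin.ext ?_)
          show i.1 + 1 = j.1
          omega
      · have : i = j := Fin.ext hij
        subst this
        unfold Adj at h
        simp at h
      · right
        refine ⟨(j, i), ?_, rfl⟩
        rw [Finset.mem_union]
        rcases Nat.lt_or_ge (j.1 + 1) i.1 with h5 | h5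
        · left
          rw [hA1, Finset.mem_filter]
          exact ⟨Finset.mem_univ _, h5, adj_symm h⟩
        · right
          rw [hA2, Finset.mem_image]
          refine ⟨⟨j.1, by have := i.2; omega⟩, Finset.mem_univ _, ?_⟩
          refine Prod.ext (Fin.ext rfl) (Fin.ext ?_)
          show j.1 + 1 = i.1
          omega
    · have key : ∀ p ∈ A1 ∪ A2, Adj (w p.1) (w p.2) := by
        intro p hp
        rw [Finset.mem_union] at hp
        rcases hp with hp | hp
        · rw [hA1, Finset.mem_filter] at hp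
          exact hp.2.2
        · rw [hA2, Finset.mem_image] at hp
          obtain ⟨i, -, rfl⟩ := hp
          exact hadj i
      rintro (h | ⟨p, hp, h⟩)
      · exact ⟨Finset.mem_univ _, key _ (Finset.mem_union.2 h)⟩
      · refine ⟨Finset.mem_univ _, ?_⟩
        rw [← h]
        exact adj_symm (key p hp)
  have hdis2 : Disjoint (A1 ∪ A2) ((A1 ∪ A2).image Prod.swap) := by
    have key : ∀ p ∈ A1 ∪ A2, p.1.1 < p.2.1 := by
      intro p hp
      rw [Finset.mem_union] at hp
      rcases hp with hp | hp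
      · rw [hA1, Finset.mem_filter] at hp
        omega
      · rw [hA2, Finset.mem_image] at hp
        obtain ⟨i, -, rfl⟩ := hp
        simp
    rw [Finset.disjoint_left]
    intro p hp hp'
    rw [Finset.mem_image] at hp'
    obtain ⟨q, hq, rfl⟩ := hp'
    have h5 := key _ hp
    have h6 := key _ hq
    simp only [Prod.fst_swap, Prod.snd_swap] at h5
    omega
  rw [h1, hA12, Finset.card_union_of_disjoint hdis2,
    Finset.card_image_of_injective _ Prod.swap_injective, Finset.card_union_of_disjoint hdis,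
    h2, h3]
  ring

theorem Z_eq (β : ℝ) (n : ℕ) : Z d n β = Real.exp (-(β * n)) * Y d (β / 2) n := by
  rw [Y_eq, mul_finsum_mem]
  unfold Z
  refine finsum_mem_congr rfl fun w hw => ?_
  unfold wt
  rw [ef_ofFn hw, ← Real.exp_add]
  congr 1
  push_cast
  ring

/-- Fekete, with the lower bound -/
theorem fekete' {y : ℕ → ℝ} {K c : ℝ} (hK : 1 ≤ K) (hc : 0 ≤ c)
    (hY1 : ∀ n : ℕ, Real.exp (-(c * n)) ≤ y n) (g : ∀ p q, y (p + q) ≤ K * (y p * y q)) :
    ∃ L : ℝ, Tendsto (fun n : ℕ => 1 / (n : ℝ) * Real.log (y n)) atTop (𝓝 L) ∧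
      ∀ n : ℕ, Real.exp (L * n) ≤ K * y n := by
  have hp : ∀ n, 0 < y n := fun n => lt_of_lt_of_le (Real.exp_pos _) (hY1 n)
  have hKp : 0 < K := by linarith
  have hsub : Subadditive (fun n => Real.log (K * y n)) := by
    intro m n
    rw [← Real.log_mul (mul_pos hKp (hp m)).ne' (mul_pos hKp (hp n)).ne']
    apply Real.log_le_log (mul_pos hKp (hp _))
    calc K * y (m + n) ≤ K * (K * (y m * y n)) :=
          mul_le_mul_of_nonneg_left (g m n) hKp.le
      _ = _ := by ring
  have hbdd : BddBelow (Set.range fun n : ℕ => Real.log (K * y n) / n) := by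
    refine ⟨-c, ?_⟩
    rintro _ ⟨n, rfl⟩
    rcases Nat.eq_zero_or_pos n with rfl | hn
    · simp [hc]
    · have hn' : (0 : ℝ) < n := by exact_mod_cast hn
      simp only
      rw [le_div_iff₀ hn', Real.le_log_iff_exp_le (mul_pos hKp (hp n))]
      have h1 := hY1 n
      have h2 : y n ≤ K * y n := by
        have := (hp n).le
        nlinarith
      have h3 : -c * (n : ℝ) = -(c * n) := by ring
      rw [h3]
      linarith
  refine ⟨hsub.lim, ?_, ?_⟩
  · have h2 := hsub.tendsto_lim hbdd
    have h3 : Tendsto (fun n : ℕ => Real.log K / (n : ℝ)) atTop (𝓝 0) :=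
      tendsto_const_nhds.div_atTop tendsto_natCast_atTop_atTop
    have h4 := h2.sub h3
    rw [sub_zero] at h4
    refine h4.congr fun n => ?_
    rw [Real.log_mul hKp.ne' (hp n).ne', add_div]
    ring
  · intro n
    rcases Nat.eq_zero_or_pos n with rfl | hn
    · have h1 := g 0 0
      have h2 := hp 0
      simp only [Nat.cast_zero, mul_zero, Real.exp_zero]
      simp only [Nat.add_zero] at h1
      have h3 : y 0 * 1 ≤ y 0 * (K * y 0) := by linarith
      exact le_of_mul_le_mul_left h3 h2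
    · have hn' : (0 : ℝ) < n := by exact_mod_cast hn
      have h1 := hsub.lim_le_div hbdd hn.ne'
      rw [le_div_iff₀ hn'] at h1
      rwa [← Real.le_log_iff_exp_le (mul_pos hKp (hp n))]

theorem main {V : Dr d D} (hV : Good V) (f0 : D) : ∃ β₀ : ℝ, 0 < β₀ ∧ ∃ K : ℝ, 1 ≤ K ∧
    ∀ β : ℝ, 0 < β → β ≤ β₀ → (∀ p q : ℕ, Z d (p + q) β ≤ K * (Z d p β * Z d q β)) ∧
      ∃ L : ℝ, Tendsto (fun n : ℕ => 1 / (n : ℝ) * Real.log (Z d n β)) atTop (𝓝 L) ∧
        ∀ n : ℕ, Real.exp (L * n) ≤ K * Z d n β := by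
  obtain ⟨γ0, K, hγ0, hK, g⟩ := submult hV
  refine ⟨2 * γ0, by linarith, K, hK, fun β h0 h1 => ?_⟩
  have g1 := g (β / 2) (by linarith) (by linarith)
  have hsub : ∀ p q : ℕ, Z d (p + q) β ≤ K * (Z d p β * Z d q β) := by
    intro p q
    rw [Z_eq, Z_eq, Z_eq]
    have e1 : Real.exp (-(β * ((p + q : ℕ) : ℝ))) = Real.exp (-(β * p)) * Real.exp (-(β * q)) := by
      rw [← Real.exp_add]
      congr 1
      push_cast
      ring
    rw [e1]
    have h2 := mul_le_mul_of_nonneg_left (g1 p q)
      (mul_pos (Real.exp_pos (-(β * p))) (Real.exp_pos (-(β * q)))).le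
    refine h2.trans (le_of_eq ?_)
    ring
  refine ⟨hsub, fekete' (c := β) hK h0.le (fun n => ?_) hsub⟩
  rw [Z_eq]
  have h2 := one_le_Y V f0 (γ := β / 2) (by linarith) n
  have h3 := Real.exp_pos (-(β * (n : ℝ)))
  nlinarith

end Pool.Agent.H829D
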