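import Pool.Agent.H829D.Dir

/-!
# Contacts of two disjoint walks and local moves
-/

set_option autoImplicit false

namespace Pool.Agent.H829D

open Finset H726.GD
open scoped Classical

variable {d : ℕ} {D : Type}

/-- adjacency in `ℤ^d` -/
def Adj (p q : Fin d → ℤ) : Prop := ∑ j : Fin d, |q j - p j| = 1

theorem lat : Lat (Adj (d := d)) (fun _ => True) where
  step := by
    intro p q h i
    unfold Adj at h
    have h1 : |q i - p i| ≤ ∑ j : Fin d, |q j - p j| :=
      Finset.single_le_sum (f := fun j => |q j - p j|) (fun _ _ => abs_nonneg _)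
        (Finset.mem_univ i)
    rw [abs_sub_comm]
    omega
  shift := by
    intro x _ p q h
    unfold Adj at h ⊢
    simpa using h

theorem adj_symm {p q : Fin d → ℤ} (h : Adj p q) : Adj q p := by
  unfold Adj at h ⊢
  rw [← h]
  exact Finset.sum_congr rfl fun j _ => abs_sub_comm _ _

theorem adj_vec (V : Dr d D) (p : Fin d → ℤ) (f : D) : Adj p (p + V.vec f) := by
  unfold Adj
  simpa using V.norm f

theorem adj_vec' (V : Dr d D) (p : Fin d → ℤ) (f : D) : Adj (p + V.vec f) p :=
  adj_symm (adj_vec V p f)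

theorem adj_iff (V : Dr d D) {p q : Fin d → ℤ} (h : Adj p q) : ∃ f, q = p + V.vec f := by
  obtain ⟨f, hf⟩ := V.all (q - p) (by simpa [Adj] using h)
  exact ⟨f, by rw [← hf]; abel⟩

/-- all replacements of `a` sites by `a + s` sites -/
def gr (d a s : ℕ) : Rl (Adj (d := d)) where
  T U U' := U.length = a ∧ U'.length = a + s ∧ Pr Adj U U'
  ρ := 2 * (a + s)
  k := a
  s := s
  step := lat.step
  pair := fun _ _ h => h.2.2
  len := fun _ _ h => ⟨h.1, h.2.1⟩
  loc := by
    rintro U U' ⟨h1, h2, h3⟩ x hx y hy i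
    obtain ⟨g1, g2, g3, -, -, -, g7, g8⟩ := h3
    obtain ⟨z, U0, rfl⟩ := List.exists_cons_of_ne_nil g1
    obtain ⟨z', U0', rfl⟩ := List.exists_cons_of_ne_nil g2
    simp only [List.head?_cons, Option.some.injEq] at g3
    subst g3
    have key : ∀ x ∈ (z :: U0) ++ (z :: U0'), ∀ i, |z i - x i| ≤ ((a + s : ℕ) : ℤ) := by
      intro x hx i
      rw [List.mem_append] at hx
      rcases hx with hx | hx
      · exact (rl0 lat).chain_box U0 z (a + s) g7 (by omega) x hx i
      · exact (rl0 lat).chain_box U0' z (a + s) g8 (by omega) x hx i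
    have k1 := key x hx i
    have k2 := key y hy i
    rw [abs_le] at *
    push_cast at *
    omega

/-- `p` is a place where the walk can be pulled to -/
def plc (w : List (Fin d → ℤ)) (p : Fin d → ℤ) : Prop :=
  ∃ U U', ((U.length = 2 ∧ U'.length = 4) ∨ (U.length = 3 ∧ U'.length = 3)) ∧ Pr Adj U U' ∧
    Free U U' w ∧ p ∈ U'

/-- the sites of the path -/
def PP (w : List (Fin d → ℤ)) (x : Fin d → ℤ) : Prop := x ∈ w ∧ x ≠ 0

/-- the edges of the path -/
def Ed (V : Dr d D) (w : List (Fin d → ℤ)) (x : Fin d → ℤ) (f : D) : Prop :=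
  ([x, x + V.vec f] <:+: w ∨ [x + V.vec f, x] <:+: w) ∧ x + V.vec f ≠ 0

/-- nearness -/
def nr (s x : Fin d → ℤ) : Prop := ∀ i, |x i - s i| ≤ 3

theorem infix3 {w : List (Fin d → ℤ)} (hn : w.Nodup) {a b c : Fin d → ℤ}
    (h1 : [a, c] <:+: w) (h2 : [c, b] <:+: w) : [a, c, b] <:+: w := by
  obtain ⟨L1, R1, h1⟩ := h1
  obtain ⟨L2, R2, h2⟩ := h2
  have e1 : (L1 ++ [a]) ++ [c] ++ R1 = w := by rw [← h1]; simp
  have e2 : L2 ++ [c] ++ (b :: R2) = w := by rw [← h2]; simp
  obtain ⟨h3, h4⟩ := split_unique (U := [c]) (by simp) (by rw [e1]; exact hn) (e1.trans e2.symm)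
  refine ⟨L1, R2, ?_⟩
  rw [← e1, h4]
  simp

theorem infix_l {w : List (Fin d → ℤ)} (hn : w.Nodup) {a b c : Fin d → ℤ}
    (h1 : [a, c] <:+: w) (h2 : [b, c] <:+: w) : a = b := by
  obtain ⟨L1, R1, h1⟩ := h1
  obtain ⟨L2, R2, h2⟩ := h2
  have e1 : (L1 ++ [a]) ++ [c] ++ R1 = w := by rw [← h1]; simp
  have e2 : (L2 ++ [b]) ++ [c] ++ R2 = w := by rw [← h2]; simp
  obtain ⟨h3, h4⟩ := split_unique (U := [c]) (by simp) (by rw [e1]; exact hn) (e1.trans e2.symm)
  have := List.append_inj_right' h3 rfl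
  simpa using this

theorem infix_r {w : List (Fin d → ℤ)} (hn : w.Nodup) {a b c : Fin d → ℤ}
    (h1 : [c, a] <:+: w) (h2 : [c, b] <:+: w) : a = b := by
  obtain ⟨L1, R1, h1⟩ := h1
  obtain ⟨L2, R2, h2⟩ := h2
  have e1 : L1 ++ [c] ++ (a :: R1) = w := by rw [← h1]; simp
  have e2 : L2 ++ [c] ++ (b :: R2) = w := by rw [← h2]; simp
  obtain ⟨h3, h4⟩ := split_unique (U := [c]) (by simp) (by rw [e1]; exact hn) (e1.trans e2.symm)
  simpa using (List.cons.inj h4).1

theorem far_zero {s x : Fin d → ℤ} (h0 : ¬ ∀ i, |(0 : Fin d → ℤ) i - s i| ≤ 5)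
    (hx : ∀ i, |x i - s i| ≤ 5) : x ≠ 0 := by
  rintro rfl
  exact h0 hx

theorem nr_add (V : Dr d D) {s x : Fin d → ℤ} (hx : nr s x) (f : D) : ∀ i, |(x + V.vec f) i - s i| ≤ 5 := by
  intro i
  have h1 := hx i
  have h2 := V.vec_le f i
  rw [abs_le] at *
  simp only [Pi.add_apply]
  omega

theorem chain_mid {M w : List (Fin d → ℤ)} (h : w.IsChain Adj) (hM : M <:+: w) :
    M.IsChain Adj := by
  obtain ⟨L, R, rfl⟩ := hM
  rw [List.isChain_append, List.isChain_append] at h
  exact h.1.2.1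

theorem rel_of (V : Dr d D) {w w' : List (Fin d → ℤ)} (hw : Walk Adj w) {s : Fin d → ℤ}
    (h0 : ¬ ∀ i, |(0 : Fin d → ℤ) i - s i| ≤ 5)
    (hl : ∀ x, w.getLast? = some x → ¬ nr s x)
    (dis : ∀ x ∈ w, x ∈ w' → x = 0)
    (hno : ∀ p, nr s p → p ∈ w' → p ∉ w → ¬ plc w p) :
    Rel V (nr s) (PP w) (PP w') (Ed V w) where
  out := by
    rintro x f ⟨h1, h2⟩
    refine ⟨?_, h2⟩
    rcases h1 with h1 | h1
    · exact h1.subset (by simp)
    · exact h1.subset (by simp)
  two := by
    rintro x hx ⟨h1, h2⟩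
    obtain ⟨hw1, hw2, hw3⟩ := hw
    obtain ⟨L, R, hLR⟩ := List.append_of_mem h1
    subst hLR
    rcases List.eq_nil_or_concat L with rfl | ⟨L', a, rfl⟩
    · simp at hw1
      exact absurd hw1 h2
    rcases R with _ | ⟨b, R⟩
    · exact absurd hx (hl x (by simp))
    have hax : [a, x] <:+: L'.concat a ++ x :: b :: R := ⟨L', b :: R, by simp⟩
    have hxb : [x, b] <:+: L'.concat a ++ x :: b :: R := ⟨L'.concat a, R, by simp⟩
    have c1 : Adj a x := by
      have := chain_mid hw3 hax
      simpa using this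
    have c2 : Adj x b := by
      have := chain_mid hw3 hxb
      simpa using this
    obtain ⟨f, hf⟩ := adj_iff V (adj_symm c1)
    obtain ⟨g, hg⟩ := adj_iff V c2
    subst hf hg
    refine ⟨f, g, ?_, ⟨Or.inr hax, far_zero h0 (nr_add V hx f)⟩,
      ⟨Or.inl hxb, far_zero h0 (nr_add V hx g)⟩⟩
    rintro rfl
    simp [List.nodup_append] at hw2
  nW := by
    rintro p a g u hp ⟨hp1, hp2⟩ ha ⟨ha1, ha2⟩ ⟨he, he2⟩ h1 h2
    refine ⟨?_, far_zero h0 (nr_add V hp u)⟩
    by_contra hc
    have hpw : p ∉ w := fun h => hp2 (dis p h hp1)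
    have hnot := hno p hp hp1 hpw
    apply hnot
    have haw : a + V.vec u ∈ w := by
      rcases he with he | he <;> exact he.subset (by simp)
    have e1 : a ≠ p := fun h => hpw (h ▸ ha1)
    have e2 : a ≠ p + V.vec u := fun h => hc (h ▸ ha1)
    have e3 : a ≠ a + V.vec u := by simp [V.vec_ne]
    have e4 : p ≠ p + V.vec u := by simp [V.vec_ne]
    have e5 : p ≠ a + V.vec u := fun h => hpw (h ▸ haw)
    have e6 : p + V.vec u ≠ a + V.vec u := fun h => e1 (add_right_cancel h).symm
    have c1 : Adj a p := by rw [ha]; exact adj_vec' V _ _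
    have c2 : Adj p (p + V.vec u) := adj_vec V _ _
    have c3 : Adj (p + V.vec u) (a + V.vec u) := by
      rw [ha, add_right_comm]; exact adj_vec V _ _
    have c4 : Adj a (a + V.vec u) := adj_vec V _ _
    rcases he with he | he
    · refine ⟨[a, a + V.vec u], [a, p, p + V.vec u, a + V.vec u], Or.inl ⟨rfl, rfl⟩, ?_, ⟨he, ?_⟩,
        by simp⟩
      · refine ⟨by simp, by simp, rfl, rfl, ?_, ?_, ?_, ?_⟩
        · simp [e3]
        · simp only [List.nodup_cons, List.mem_cons, List.not_mem_nil, or_false, not_or]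
          exact ⟨⟨e1, e2, e3⟩, ⟨e4, e5⟩, e6, not_false, List.nodup_nil⟩
        · simp [c4]
        · simp [c1, c2, c3]
      · intro x hx hx'
        simp only [List.mem_cons, List.not_mem_nil, or_false, not_or] at hx hx'
        rcases hx with rfl | rfl | rfl | rfl
        · exact absurd rfl hx'.1
        · exact hpw
        · exact hc
        · exact absurd rfl hx'.2
    · refine ⟨[a + V.vec u, a], [a + V.vec u, p + V.vec u, p, a], Or.inl ⟨rfl, rfl⟩, ?_, ⟨he, ?_⟩,
        by simp⟩
      · refine ⟨by simp, by simp, rfl, rfl, ?_, ?_, ?_, ?_⟩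
        · simp [e3, V.vec_ne]
        · simp only [List.nodup_cons, List.mem_cons, List.not_mem_nil, or_false, not_or]
          exact ⟨⟨e6.symm, e5.symm, e3.symm⟩, ⟨e4.symm, e2.symm⟩, e1.symm, not_false,
            List.nodup_nil⟩
        · simp [adj_symm c4]
        · simp [adj_symm c1, adj_symm c2, adj_symm c3]
      · intro x hx hx'
        simp only [List.mem_cons, List.not_mem_nil, or_false, not_or] at hx hx'
        rcases hx with rfl | rfl | rfl | rfl
        · exact absurd rfl hx'.1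
        · exact hc
        · exact hpw
        · exact absurd rfl hx'.2
  nF := by
    rintro p a b f u hp ⟨hp1, hp2⟩ ha hb h1 h2 ⟨he, he2⟩ ⟨hk, hk2⟩
    have hpw : p ∉ w := fun h => hp2 (dis p h hp1)
    apply hno p hp hp1 hpw
    have hc : b + V.vec f = a + V.vec u := by rw [ha, hb, add_right_comm]
    rw [hc] at hk
    have haw : a ∈ w := by
      rcases he with he | he <;> exact he.subset (by simp)
    have hbw : b ∈ w := by
      rcases hk with he | he <;> exact he.subset (by simp)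
    have e1 : a ≠ p := fun h => hpw (h ▸ haw)
    have e2 : b ≠ p := fun h => hpw (h ▸ hbw)
    have e3 : a ≠ b := by
      rw [ha, hb]
      intro h
      exact h1 (V.vec_inj _ _ (add_left_cancel h)).symm
    have e4 : a ≠ a + V.vec u := by simp [V.vec_ne]
    have e5 : b ≠ a + V.vec u := by rw [← hc]; simp [V.vec_ne]
    have c1 : Adj a p := by rw [ha]; exact adj_vec' V _ _
    have c2 : Adj b p := by rw [hb]; exact adj_vec' V _ _
    have c3 : Adj a (a + V.vec u) := adj_vec V _ _
    have c4 : Adj b (a + V.vec u) := by rw [← hc]; exact adj_vec V _ _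
    rcases he with he | he <;> rcases hk with hk | hk
    · exact absurd (infix_l hw.2.1 he hk) e3
    · refine ⟨[a, a + V.vec u, b], [a, p, b], Or.inr ⟨rfl, rfl⟩, ?_, ⟨infix3 hw.2.1 he hk, ?_⟩,
        by simp⟩
      · refine ⟨by simp, by simp, rfl, rfl, ?_, ?_, ?_, ?_⟩
        · simp only [List.nodup_cons, List.mem_cons, List.not_mem_nil, or_false, not_or]
          exact ⟨⟨e4, e3⟩, e5.symm, not_false, List.nodup_nil⟩
        · simp only [List.nodup_cons, List.mem_cons, List.not_mem_nil, or_false, not_or]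
          exact ⟨⟨e1, e3⟩, e2.symm, not_false, List.nodup_nil⟩
        · simp [c3, adj_symm c4]
        · simp [c1, adj_symm c2]
      · intro x hx hx'
        simp only [List.mem_cons, List.not_mem_nil, or_false, not_or] at hx hx'
        rcases hx with rfl | rfl | rfl
        · exact absurd rfl hx'.1
        · exact hpw
        · exact absurd rfl hx'.2.2
    · refine ⟨[b, a + V.vec u, a], [b, p, a], Or.inr ⟨rfl, rfl⟩, ?_, ⟨infix3 hw.2.1 hk he, ?_⟩,
        by simp⟩
      · refine ⟨by simp, by simp, rfl, rfl, ?_, ?_, ?_, ?_⟩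
        · simp only [List.nodup_cons, List.mem_cons, List.not_mem_nil, or_false, not_or]
          exact ⟨⟨e5, e3.symm⟩, e4.symm, not_false, List.nodup_nil⟩
        · simp only [List.nodup_cons, List.mem_cons, List.not_mem_nil, or_false, not_or]
          exact ⟨⟨e2, e3.symm⟩, e1.symm, not_false, List.nodup_nil⟩
        · simp [c4, adj_symm c3]
        · simp [c2, adj_symm c1]
      · intro x hx hx'
        simp only [List.mem_cons, List.not_mem_nil, or_false, not_or] at hx hx'
        rcases hx with rfl | rfl | rfl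
        · exact absurd rfl hx'.1
        · exact hpw
        · exact absurd rfl hx'.2.2
    · exact absurd (infix_r hw.2.1 he hk) e3

/-- every contact away from the end points has a place nearby -/
theorem near_plc {V : Dr d D} (hV : Good V) {w w' : List (Fin d → ℤ)} (hw : Walk Adj w)
    (hw' : Walk Adj w') (dis : ∀ x ∈ w, x ∈ w' → x = 0) {s a : Fin d → ℤ} (hs : s ∈ w') (ha : a ∈ w)
    (hsa : Adj s a)
    (h0 : ¬ ∀ i, |(0 : Fin d → ℤ) i - s i| ≤ 5)
    (hl : ∀ x, w.getLast? = some x → ¬ nr s x)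
    (hl' : ∀ x, w'.getLast? = some x → ¬ nr s x) :
    ∃ p, nr s p ∧ ((p ∈ w' ∧ p ∉ w ∧ plc w p) ∨ (p ∈ w ∧ p ∉ w' ∧ plc w' p)) := by
  by_contra hc
  push Not at hc
  have H : Rel V (nr s) (PP w) (PP w') (Ed V w) :=
    rel_of V hw h0 hl dis fun p h1 h2 h3 => (hc p h1).1 h2 h3
  have H' : Rel V (nr s) (PP w') (PP w) (Ed V w') :=
    rel_of V hw' h0 hl' (fun x h1 h2 => dis x h2 h1) fun p h1 h2 h3 => (hc p h1).2 h2 h3
  obtain ⟨f, rfl⟩ := adj_iff V hsa
  have n0 : nr s s := by intro i; simp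
  have n1 : ∀ f, nr s (s + V.vec f) := by
    intro f i
    have h1 := V.vec_le f i
    rw [abs_le] at *
    simp only [Pi.add_apply]
    omega
  have n2 : ∀ f g, nr s (s + V.vec f + V.vec g) := by
    intro f g i
    have h1 := V.vec_le f i
    have h2 := V.vec_le g i
    rw [abs_le] at *
    simp only [Pi.add_apply]
    omega
  have n3 : ∀ f g h, nr s (s + V.vec f + V.vec g + V.vec h) := by
    intro f g h i
    have h1 := V.vec_le f i
    have h2 := V.vec_le g i
    have h3 := V.vec_le h i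
    rw [abs_le] at *
    simp only [Pi.add_apply]
    omega
  refine hV _ _ _ _ _ H H' ?_ s n0 n1 n2 n3 ⟨hs, ?_⟩ f ⟨ha, ?_⟩
  · rintro x ⟨h1, h2⟩ ⟨h3, -⟩
    exact h2 (dis x h1 h3)
  · exact far_zero h0 fun i => (n0 i).trans (by norm_num)
  · exact far_zero h0 fun i => (n1 f i).trans (by norm_num)

end Pool.Agent.H829D
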