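import Pool.Agent.H829D.Cut

/-!
# The number of contacts of two independent weighted walks
-/

set_option autoImplicit false

namespace Pool.Agent.H829D

open Finset H726.GD
open scoped Classical

variable {d : ℕ} {D : Type}

/-- the sites as a set -/
def st (w : List (Fin d → ℤ)) : Set (Fin d → ℤ) := {x | x ∈ w}

/-- all the moves of `w` into `w'` -/
noncomputable def am (w w' : List (Fin d → ℤ)) : Finset (List (Fin d → ℤ) × List (Fin d → ℤ)) :=
  H829C.mv (gr d 2 2) (st w') w ∪ H829C.mv (gr d 3 0) (st w') w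

theorem plc_am {w w' : List (Fin d → ℤ)} {p : Fin d → ℤ} (h : plc w p) (hp : p ∈ w')
    (hp' : p ∉ w) : ∃ q ∈ am w w', p ∈ q.2 := by
  obtain ⟨U, U', h1, h2, h3, h4⟩ := h
  refine ⟨(U, U'), ?_, h4⟩
  have h5 : p ∉ U := fun hc => hp' (h3.1.subset hc)
  unfold am H829C.mv
  rw [Finset.mem_union, Finset.mem_filter, Finset.mem_filter, (gr d 2 2).mem_S, (gr d 3 0).mem_S]
  rcases h1 with h1 | h1
  · exact Or.inl ⟨⟨⟨h1.1, h1.2, h2⟩, h3⟩, p, h4, hp, h5⟩
  · exact Or.inr ⟨⟨⟨h1.1, h1.2, h2⟩, h3⟩, p, h4, hp, h5⟩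

theorem am_len {w w' : List (Fin d → ℤ)} {q : List (Fin d → ℤ) × List (Fin d → ℤ)}
    (h : q ∈ am w w') : q.2.length ≤ 4 := by
  unfold am H829C.mv at h
  rw [Finset.mem_union, Finset.mem_filter, Finset.mem_filter, (gr d 2 2).mem_S,
    (gr d 3 0).mem_S] at h
  rcases h with h | h
  · have := h.1.1.2.1
    omega
  · have := h.1.1.2.1
    omega

/-- the sites within distance 3 of the moves -/
noncomputable def ar (w w' : List (Fin d → ℤ)) : Finset (Fin d → ℤ) :=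
  (am w w').biUnion (fun q => q.2.toFinset.biUnion (fun p => box p 3))

theorem card_ar (w w' : List (Fin d → ℤ)) : (ar w w').card ≤ (am w w').card * (4 * 7 ^ d) := by
  unfold ar
  refine Finset.card_biUnion_le_card_mul _ _ _ fun q hq => ?_
  refine (Finset.card_biUnion_le_card_mul _ _ (7 ^ d) fun p _ => ?_).trans ?_
  · rw [card_box]
  · exact Nat.mul_le_mul_right _ ((List.toFinset_card_le _).trans (am_len hq))

/-- the last point -/
def ls (w : List (Fin d → ℤ)) : Fin d → ℤ := w.getLast?.getD 0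

theorem ct_le {V : Dr d D} (hV : Good V) {w w' : List (Fin d → ℤ)} (hw : Walk Adj w)
    (hw' : Walk Adj w') (dis : ∀ x ∈ w, x ∈ w' → x = 0) :
    ct w w' ≤ 3 ^ d * (3 * 11 ^ d + 4 * 7 ^ d * ((am w w').card + (am w' w).card)) := by
  obtain ⟨S, hS⟩ : ∃ S : Finset (Fin d → ℤ), S = box 0 5 ∪ box (ls w) 5 ∪ box (ls w') 5 ∪
    ar w w' ∪ ar w' w := ⟨_, rfl⟩
  have hSc : S.card ≤ 3 * 11 ^ d + 4 * 7 ^ d * ((am w w').card + (am w' w).card) := by
    rw [hS]
    have h1 := Finset.card_union_le (box 0 5 ∪ box (ls w) 5 ∪ box (ls w') 5 ∪ ar w w') (ar w' w)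
    have h2 := Finset.card_union_le (box 0 5 ∪ box (ls w) 5 ∪ box (ls w') 5) (ar w w')
    have h3 := Finset.card_union_le (box 0 5 ∪ box (ls w) 5) (box (ls w') 5)
    have h4 := Finset.card_union_le (box (0 : Fin d → ℤ) 5) (box (ls w) 5)
    have h5 : ∀ x : Fin d → ℤ, (box x 5).card = 11 ^ d := fun x => by rw [card_box]
    rw [h5, h5] at h4
    rw [h5] at h3
    have h6 := card_ar w w'
    have h7 := card_ar w' w
    have h8 : 4 * 7 ^ d * ((am w w').card + (am w' w).card) =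
        (am w w').card * (4 * 7 ^ d) + (am w' w).card * (4 * 7 ^ d) := by ring
    omega
  have hsub : (w.toFinset ×ˢ w'.toFinset).filter (fun x => x.1 ≠ 0 ∧ x.2 ≠ 0 ∧ Adj x.1 x.2) ⊆
      S.biUnion (fun s => (box s 1).image (fun a => (a, s))) := by
    rintro ⟨a, s⟩ h
    rw [Finset.mem_filter, Finset.mem_product, List.mem_toFinset, List.mem_toFinset] at h
    obtain ⟨⟨h1, h2⟩, h3, h4, h5⟩ := h
    simp only at h1 h2 h3 h4 h5
    rw [Finset.mem_biUnion]
    refine ⟨s, ?_, Finset.mem_image.2 ⟨a, ?_, rfl⟩⟩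
    swap
    · rw [mem_box]
      intro i
      exact_mod_cast lat.step s a (adj_symm h5) i
    by_contra hc
    rw [hS] at hc
    simp only [Finset.mem_union, not_or] at hc
    obtain ⟨⟨⟨⟨c1, c2⟩, c3⟩, c4⟩, c5⟩ := hc
    rw [mem_box] at c1 c2 c3
    have hnr : ∀ x, nr s x → s ∈ box x 3 := by
      intro x hx
      rw [mem_box]
      exact hx
    obtain ⟨p, hp, hpp⟩ := near_plc hV hw hw' dis h2 h1 (adj_symm h5) c1
      (fun x hx hn => c2 fun i => by
        have : ls w = x := by unfold ls; rw [hx]; rfl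
        rw [this]
        exact (hn i).trans (by norm_num))
      (fun x hx hn => c3 fun i => by
        have : ls w' = x := by unfold ls; rw [hx]; rfl
        rw [this]
        exact (hn i).trans (by norm_num))
    rcases hpp with ⟨p1, p2, p3⟩ | ⟨p1, p2, p3⟩
    · obtain ⟨q, hq, hpq⟩ := plc_am p3 p1 p2
      apply c4
      unfold ar
      rw [Finset.mem_biUnion]
      refine ⟨q, hq, ?_⟩
      rw [Finset.mem_biUnion]
      exact ⟨p, List.mem_toFinset.2 hpq, hnr p hp⟩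
    · obtain ⟨q, hq, hpq⟩ := plc_am p3 p1 p2
      apply c5
      unfold ar
      rw [Finset.mem_biUnion]
      refine ⟨q, hq, ?_⟩
      rw [Finset.mem_biUnion]
      exact ⟨p, List.mem_toFinset.2 hpq, hnr p hp⟩
  have h1 := Finset.card_le_card hsub
  have h2 := Finset.card_biUnion_le_card_mul S
    (fun s => (box s 1).image (fun a => (a, s))) (3 ^ d)
    (fun s _ => Finset.card_image_le.trans (by rw [card_box]))
  unfold ct
  calc _ ≤ _ := h1
    _ ≤ _ := h2
    _ = 3 ^ d * S.card := mul_comm _ _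
    _ ≤ _ := Nat.mul_le_mul_left _ hSc

/-- the weighted tail of the number of contacts -/
theorem pairW {V : Dr d D} (hV : Good V) (M0 Df : ℝ) (hM0 : 0 ≤ M0) (hD : 0 ≤ Df) :
    ∃ K : ℝ, 1 ≤ K ∧ ∀ f : List (Pt d) → ℝ, (∀ w, 0 ≤ f w) →
      (∀ (w : List (Pt d)) (q : List (Pt d) × List (Pt d)), Walk Adj w → q ∈ (gr d 2 2).S w →
        f w ≤ Df * f (Rl.rep w q.1 q.2)) →
      (∀ (w : List (Pt d)) (q : List (Pt d) × List (Pt d)), Walk Adj w → q ∈ (gr d 3 0).S w →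
        f w ≤ Df * f (Rl.rep w q.1 q.2)) →
      (∀ n k : ℕ, ∑ w ∈ KK d (n + 2 * k), f w ≤ M0 ^ k * ∑ w ∈ KK d n, f w) →
      ∀ (n m : ℕ) (x : ℝ), ∑ p ∈ (KK d n ×ˢ KK d m).filter (fun p => (∀ y ∈ p.1, y ∈ p.2 → y = 0) ∧
        x ≤ (ct p.1 p.2 : ℝ)), f p.1 * f p.2 ≤
        K * Real.exp (-x / K) * ((∑ w ∈ KK d n, f w) * (∑ w ∈ KK d m, f w)) := by
  obtain ⟨K1, hK1, g1⟩ := obstW (gr d 2 2) M0 Df hM0 hD
  obtain ⟨K2, hK2, g2⟩ := obstW (gr d 3 0) 1 Df zero_le_one hD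
  obtain ⟨K0, hK0⟩ : ∃ K0 : ℝ, K0 = max K1 K2 := ⟨_, rfl⟩
  have hK01 : K1 ≤ K0 := by rw [hK0]; exact le_max_left _ _
  have hK02 : K2 ≤ K0 := by rw [hK0]; exact le_max_right _ _
  obtain ⟨Q, hQ⟩ : ∃ Q : ℝ, Q = 16 * 3 ^ d * 7 ^ d := ⟨_, rfl⟩
  obtain ⟨R, hR⟩ : ∃ R : ℝ, R = 3 ^ d * (3 * 11 ^ d) := ⟨_, rfl⟩
  have hQ1 : 1 ≤ Q := by
    rw [hQ]
    have h3 : (1 : ℝ) ≤ 3 ^ d := one_le_pow₀ (by norm_num)
    have h7 : (1 : ℝ) ≤ 7 ^ d := one_le_pow₀ (by norm_num)
    nlinarith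
  have hR0 : 0 ≤ R := by rw [hR]; positivity
  have hK0' : 1 ≤ K0 := hK1.trans hK01
  have heR : 1 ≤ Real.exp R := Real.one_le_exp hR0
  obtain ⟨K, hK⟩ : ∃ K : ℝ, K = 4 * Real.exp R * (Q * K0) := ⟨_, rfl⟩
  have hQK : 1 ≤ Q * K0 := by nlinarith
  have hQK0 : K0 ≤ Q * K0 := by nlinarith
  have hKQ : Q * K0 ≤ K := by rw [hK]; nlinarith
  refine ⟨K, by linarith, fun f hf d1 d2 hs n m x => ?_⟩
  obtain ⟨Y, hY⟩ : ∃ Y : ℕ → ℝ, Y = fun n => ∑ w ∈ KK d n, f w := ⟨_, rfl⟩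
  have hY0 : ∀ n, 0 ≤ Y n := by
    intro n
    rw [hY]
    exact Finset.sum_nonneg fun w _ => hf w
  have hYn : ∀ n, ∑ w ∈ KK d n, f w = Y n := by
    intro n
    rw [hY]
  rw [hYn, hYn]
  have hnm : 0 ≤ Y n * Y m := mul_nonneg (hY0 _) (hY0 _)
  by_cases hx : x ≤ 0
  · have h1 : ∑ p ∈ (KK d n ×ˢ KK d m).filter (fun p => (∀ y ∈ p.1, y ∈ p.2 → y = 0) ∧
        x ≤ (ct p.1 p.2 : ℝ)), f p.1 * f p.2 ≤ Y n * Y m := by
      rw [hY]
      simp only
      rw [Finset.sum_mul_sum, ← Finset.sum_product']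
      exact Finset.sum_le_sum_of_subset_of_nonneg (Finset.filter_subset _ _)
        fun p _ _ => mul_nonneg (hf _) (hf _)
    have h2 : 1 ≤ Real.exp (-x / K) := by
      apply Real.one_le_exp
      apply div_nonneg <;> linarith
    have h3 : 1 ≤ K * Real.exp (-x / K) := by nlinarith
    nlinarith
  push Not at hx
  obtain ⟨y, hy⟩ : ∃ y : ℝ, y = (x - R) / Q := ⟨_, rfl⟩
  -- the four events
  obtain ⟨F, hF⟩ : ∃ F : Rl (Adj (d := d)) → ℕ → ℕ →
      Finset (List (Fin d → ℤ) × List (Fin d → ℤ)),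
      F = fun Z n m => (KK d n ×ˢ KK d m).filter (fun p => (∀ y ∈ p.1, y ∈ p.2 → y = 0) ∧
        y ≤ ((H829C.mv Z (st p.2) p.1).card : ℝ)) := ⟨_, rfl⟩
  have hFc : ∀ (Z : Rl (Adj (d := d))) (K : ℝ), 1 ≤ K → K ≤ K0 →
      (∀ (O : Set (Pt d)) (n : ℕ) (J : ℝ),
        ∑ w ∈ (KK d n).filter (fun w => (∀ x ∈ w, x ∈ O → x = 0) ∧
          J ≤ ((H829C.mv Z O w).card : ℝ)), f w ≤ K * Real.exp (-J / K) * ∑ w ∈ KK d n, f w) →
      ∀ n m : ℕ, ∑ p ∈ F Z n m, f p.1 * f p.2 ≤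
        K0 * (Real.exp R * Real.exp (-x / (Q * K0))) * (Y n * Y m) := by
    intro Z K hK1' hKK g n m
    have e1 : ∑ p ∈ F Z n m, f p.1 * f p.2 = ∑ w' ∈ KK d m, f w' * ∑ w ∈ (KK d n).filter
        (fun w => (∀ x ∈ w, x ∈ st w' → x = 0) ∧ y ≤ ((H829C.mv Z (st w') w).card : ℝ)), f w := by
      rw [hF]
      simp only
      rw [Finset.sum_filter, Finset.sum_product_right]
      refine Finset.sum_congr rfl fun w' _ => ?_
      rw [Finset.sum_filter, Finset.mul_sum]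
      refine Finset.sum_congr rfl fun w _ => ?_
      by_cases hc : (∀ x ∈ w, x ∈ st w' → x = 0) ∧ y ≤ ((H829C.mv Z (st w') w).card : ℝ)
      · rw [if_pos hc]
        refine (if_pos ?_).trans (mul_comm _ _)
        exact hc
      · rw [if_neg hc, mul_zero]
        refine if_neg ?_
        exact hc
    rw [e1]
    have e2 : ∀ w' ∈ KK d m, f w' * ∑ w ∈ (KK d n).filter
        (fun w => (∀ x ∈ w, x ∈ st w' → x = 0) ∧ y ≤ ((H829C.mv Z (st w') w).card : ℝ)), f w ≤
        f w' * (K * Real.exp (-y / K) * Y n) := by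
      intro w' _
      refine mul_le_mul_of_nonneg_left ?_ (hf w')
      have := g (st w') n y
      rw [hYn] at this
      exact this
    refine (Finset.sum_le_sum e2).trans ?_
    rw [← Finset.sum_mul, hYn]
    have e3 : Real.exp (-y / K) ≤ Real.exp R * Real.exp (-x / (Q * K0)) := by
      rw [← Real.exp_add]
      apply Real.exp_le_exp.2
      rw [hy]
      have hKp : 0 < K := by linarith
      have hQp : 0 < Q := by linarith
      have e5 : x / (Q * K0) ≤ x / (Q * K) := by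
        apply div_le_div_of_nonneg_left hx.le (by positivity)
        exact mul_le_mul_of_nonneg_left hKK hQp.le
      have e6 : -((x - R) / Q) / K = R / (Q * K) - x / (Q * K) := by
        field_simp
        ring
      have e7 : R / (Q * K) ≤ R := by
        apply div_le_self hR0
        nlinarith
      rw [e6, neg_div]
      linarith
    have e8 : K * Real.exp (-y / K) ≤ K0 * (Real.exp R * Real.exp (-x / (Q * K0))) :=
      mul_le_mul hKK e3 (Real.exp_pos _).le (by linarith)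
    calc Y m * (K * Real.exp (-y / K) * Y n) = K * Real.exp (-y / K) * (Y n * Y m) := by ring
      _ ≤ _ := mul_le_mul_of_nonneg_right e8 (mul_nonneg (hY0 _) (hY0 _))
  have hsub : (KK d n ×ˢ KK d m).filter (fun p => (∀ y ∈ p.1, y ∈ p.2 → y = 0) ∧
      x ≤ (ct p.1 p.2 : ℝ)) ⊆ (F (gr d 2 2) n m ∪ F (gr d 3 0) n m) ∪
        ((F (gr d 2 2) m n).image Prod.swap ∪ (F (gr d 3 0) m n).image Prod.swap) := by
    rintro ⟨w, w'⟩ h
    rw [Finset.mem_filter, Finset.mem_product, mem_KK, mem_KK] at h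
    obtain ⟨⟨h1, h2⟩, h3, h4⟩ := h
    simp only at h1 h2 h3 h4
    by_contra hc
    rw [Finset.mem_union, Finset.mem_union, Finset.mem_union, not_or, not_or, not_or,
      Finset.mem_image, Finset.mem_image] at hc
    obtain ⟨⟨c1, c2⟩, c3, c4⟩ := hc
    rw [hF] at c1 c2 c3 c4
    simp only [Finset.mem_filter, Finset.mem_product, mem_KK, not_and, not_le] at c1 c2
    have d1 := c1 ⟨h1, h2⟩ h3
    have d2 := c2 ⟨h1, h2⟩ h3
    have d3 : ((H829C.mv (gr d 2 2) (st w) w').card : ℝ) < y := by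
      by_contra hcc
      push Not at hcc
      refine c3 ⟨(w', w), ?_, rfl⟩
      rw [Finset.mem_filter, Finset.mem_product, mem_KK, mem_KK]
      exact ⟨⟨h2, h1⟩, fun y a b => h3 y b a, hcc⟩
    have d4 : ((H829C.mv (gr d 3 0) (st w) w').card : ℝ) < y := by
      by_contra hcc
      push Not at hcc
      refine c4 ⟨(w', w), ?_, rfl⟩
      rw [Finset.mem_filter, Finset.mem_product, mem_KK, mem_KK]
      exact ⟨⟨h2, h1⟩, fun y a b => h3 y b a, hcc⟩
    have d5 := ct_le hV h1.2 h2.2 h3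
    have d6 : (am w w').card ≤ (H829C.mv (gr d 2 2) (st w') w).card +
      (H829C.mv (gr d 3 0) (st w') w).card := Finset.card_union_le _ _
    have d7 : (am w' w).card ≤ (H829C.mv (gr d 2 2) (st w) w').card +
      (H829C.mv (gr d 3 0) (st w) w').card := Finset.card_union_le _ _
    have d8 : (ct w w' : ℝ) ≤ 3 ^ d * (3 * 11 ^ d + 4 * 7 ^ d *
        (((am w w').card : ℝ) + (am w' w).card)) := by exact_mod_cast d5
    have d6' : ((am w w').card : ℝ) ≤ (H829C.mv (gr d 2 2) (st w') w).card +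
      (H829C.mv (gr d 3 0) (st w') w).card := by exact_mod_cast d6
    have d7' : ((am w' w).card : ℝ) ≤ (H829C.mv (gr d 2 2) (st w) w').card +
      (H829C.mv (gr d 3 0) (st w) w').card := by exact_mod_cast d7
    have hlt : ((am w w').card : ℝ) + (am w' w).card < 4 * y := by linarith
    have hpos : (0 : ℝ) < 4 * 3 ^ d * 7 ^ d := by positivity
    have hyQ : Q * y = x - R := by
      rw [hy]
      have : Q ≠ 0 := by linarith
      field_simp
    have h9 : (ct w w' : ℝ) < x := by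
      calc (ct w w' : ℝ) ≤ R + 4 * 3 ^ d * 7 ^ d * (((am w w').card : ℝ) + (am w' w).card) := by
            rw [hR]; linarith
        _ < R + 4 * 3 ^ d * 7 ^ d * (4 * y) := by
            have := mul_lt_mul_of_pos_left hlt hpos
            linarith
        _ = R + Q * y := by rw [hQ]; ring
        _ = x := by rw [hyQ]; ring
    linarith
  obtain ⟨G, hG⟩ : ∃ G : List (Fin d → ℤ) × List (Fin d → ℤ) → ℝ, G = fun p => f p.1 * f p.2 :=
    ⟨_, rfl⟩
  have hG0 : ∀ p, 0 ≤ G p := by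
    intro p
    rw [hG]
    exact mul_nonneg (hf _) (hf _)
  have hun : ∀ A B : Finset (List (Fin d → ℤ) × List (Fin d → ℤ)),
      ∑ p ∈ A ∪ B, G p ≤ ∑ p ∈ A, G p + ∑ p ∈ B, G p := by
    intro A B
    have := Finset.sum_union_inter (s₁ := A) (s₂ := B) (f := G)
    have h0 : 0 ≤ ∑ p ∈ A ∩ B, G p := Finset.sum_nonneg fun p _ => hG0 p
    linarith
  have hsw : ∀ A : Finset (List (Fin d → ℤ) × List (Fin d → ℤ)),
      ∑ p ∈ A.image Prod.swap, G p = ∑ p ∈ A, G p := by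
    intro A
    rw [Finset.sum_image fun a _ b _ h => Prod.swap_injective h]
    refine Finset.sum_congr rfl fun p _ => ?_
    rw [hG]
    exact mul_comm _ _
  have hsum := Finset.sum_le_sum_of_subset_of_nonneg hsub (f := G) fun p _ _ => hG0 p
  have c1 := hun (F (gr d 2 2) n m ∪ F (gr d 3 0) n m)
    ((F (gr d 2 2) m n).image Prod.swap ∪ (F (gr d 3 0) m n).image Prod.swap)
  have c2 := hun (F (gr d 2 2) n m) (F (gr d 3 0) n m)
  have c3 := hun ((F (gr d 2 2) m n).image Prod.swap) ((F (gr d 3 0) m n).image Prod.swap)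
  rw [hsw, hsw] at c3
  have f1 := hFc _ K1 hK1 hK01 (g1 f hf d1 hs) n m
  have f2 := hFc _ K2 hK2 hK02 (g2 f hf d2 (fun n k => by
    have : (gr d 3 0).s = 0 := rfl
    rw [this, Nat.zero_mul, Nat.add_zero, one_pow, one_mul])) n m
  have f3 := hFc _ K1 hK1 hK01 (g1 f hf d1 hs) m n
  have f4 := hFc _ K2 hK2 hK02 (g2 f hf d2 (fun n k => by
    have : (gr d 3 0).s = 0 := rfl
    rw [this, Nat.zero_mul, Nat.add_zero, one_pow, one_mul])) m n
  rw [mul_comm (Y m) (Y n)] at f3 f4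
  have hfin : ∑ p ∈ (KK d n ×ˢ KK d m).filter (fun p => (∀ y ∈ p.1, y ∈ p.2 → y = 0) ∧
      x ≤ (ct p.1 p.2 : ℝ)), f p.1 * f p.2 ≤
      4 * (K0 * (Real.exp R * Real.exp (-x / (Q * K0))) * (Y n * Y m)) := by
    have e0 : ∀ A : Finset (List (Fin d → ℤ) × List (Fin d → ℤ)),
        ∑ p ∈ A, f p.1 * f p.2 = ∑ p ∈ A, G p := by
      intro A
      rw [hG]
    rw [e0] at f1 f2 f3 f4 ⊢
    linarith
  refine hfin.trans ?_
  have hexp : Real.exp (-x / (Q * K0)) ≤ Real.exp (-x / K) := by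
    apply Real.exp_le_exp.2
    rw [neg_div, neg_div, neg_le_neg_iff]
    exact div_le_div_of_nonneg_left hx.le (by linarith) hKQ
  calc 4 * (K0 * (Real.exp R * Real.exp (-x / (Q * K0))) * (Y n * Y m))
      = (4 * Real.exp R * K0) * Real.exp (-x / (Q * K0)) * (Y n * Y m) := by ring
    _ ≤ K * Real.exp (-x / K) * (Y n * Y m) := by
        apply mul_le_mul_of_nonneg_right _ hnm
        refine mul_le_mul ?_ hexp (Real.exp_pos _).le (by linarith)
        rw [hK]
        exact mul_le_mul_of_nonneg_left hQK0 (by positivity)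

/-- the weighted exponential moment -/
theorem momentW {f : List (Pt d) → ℝ} (hf : ∀ w, 0 ≤ f w) {K θ : ℝ} (hK : 1 ≤ K)
    (hθ : θ ≤ 1 / (2 * K)) {p q : ℕ} {Y : ℝ} (hY : 0 ≤ Y)
    (g : ∀ x : ℝ, ∑ p ∈ (KK d p ×ˢ KK d q).filter (fun p => (∀ y ∈ p.1, y ∈ p.2 → y = 0) ∧
        x ≤ (ct p.1 p.2 : ℝ)), f p.1 * f p.2 ≤ K * Real.exp (-x / K) * Y) :
    ∑ x ∈ (KK d p ×ˢ KK d q).filter (fun x => ∀ y ∈ x.1, y ∈ x.2 → y = 0),
      Real.exp (θ * ct x.1 x.2) * (f x.1 * f x.2) ≤ K * (1 + 2 * K) * Y := by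
  have hKp : 0 < K := by linarith
  obtain ⟨F, hF⟩ : ∃ F, F = (KK d p ×ˢ KK d q).filter (fun x => ∀ y ∈ x.1, y ∈ x.2 → y = 0) :=
    ⟨_, rfl⟩
  obtain ⟨N, hN⟩ : ∃ N, N = F.sup (fun x => ct x.1 x.2) := ⟨_, rfl⟩
  rw [← hF]
  have h3 : ∑ x ∈ F, Real.exp (θ * ct x.1 x.2) * (f x.1 * f x.2) ≤
      ∑ x ∈ F, ∑ j ∈ Finset.range (N + 1), if j ≤ ct x.1 x.2 then
        Real.exp (θ * j) * (f x.1 * f x.2) else 0 := by
    refine Finset.sum_le_sum fun x hx => ?_
    have hx' : ct x.1 x.2 ≤ N := by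
      rw [hN]
      exact Finset.le_sup (f := fun x => ct x.1 x.2) hx
    have h4 := Finset.single_le_sum (f := fun j => if j ≤ ct x.1 x.2 then
      Real.exp (θ * j) * (f x.1 * f x.2) else 0) (s := Finset.range (N + 1)) (fun j _ => by
        split_ifs
        · exact mul_nonneg (Real.exp_pos _).le (mul_nonneg (hf _) (hf _))
        · exact le_rfl) (Finset.mem_range.2 (Nat.lt_succ_of_le hx'))
    simpa using h4
  refine h3.trans ?_
  rw [Finset.sum_comm]
  have h5 : ∀ j ∈ Finset.range (N + 1), (∑ x ∈ F, if j ≤ ct x.1 x.2 then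
      Real.exp (θ * j) * (f x.1 * f x.2) else 0) ≤
      (K * Y) * Real.exp (-(1 / (2 * K))) ^ j := by
    intro j _
    rw [← Finset.sum_filter, ← Finset.mul_sum]
    have h6 := g j
    have h7 : F.filter (fun x => j ≤ ct x.1 x.2) = (KK d p ×ˢ KK d q).filter
        (fun p => (∀ y ∈ p.1, y ∈ p.2 → y = 0) ∧ (j : ℝ) ≤ (ct p.1 p.2 : ℝ)) := by
      rw [hF, Finset.filter_filter]
      refine Finset.filter_congr fun x _ => ?_
      rw [Nat.cast_le]
    rw [h7]
    refine (mul_le_mul_of_nonneg_left h6 (Real.exp_pos _).le).trans ?_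
    have h8 : Real.exp (θ * j) * (K * Real.exp (-(j : ℝ) / K) * Y) =
        (K * Y) * (Real.exp (θ * j) * Real.exp (-(j : ℝ) / K)) := by ring
    rw [h8, ← Real.exp_add, ← Real.exp_nat_mul]
    refine mul_le_mul_of_nonneg_left (Real.exp_le_exp.2 ?_) (mul_nonneg hKp.le hY)
    have h9 : θ * j ≤ 1 / (2 * K) * j := mul_le_mul_of_nonneg_right hθ (Nat.cast_nonneg _)
    have h10 : 1 / (2 * K) * (j : ℝ) + -(j : ℝ) / K = (j : ℝ) * -(1 / (2 * K)) := by
      field_simp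
      ring
    linarith
  refine (Finset.sum_le_sum h5).trans ?_
  rw [← Finset.mul_sum]
  have h9 : ∑ j ∈ Finset.range (N + 1), Real.exp (-(1 / (2 * K))) ^ j ≤ 1 + 2 * K := by
    have r0 : 0 ≤ Real.exp (-(1 / (2 * K))) := (Real.exp_pos _).le
    have r1 : Real.exp (-(1 / (2 * K))) ≤ 1 / (1 + 1 / (2 * K)) := by
      rw [Real.exp_neg, ← one_div]
      apply one_div_le_one_div_of_le (by positivity)
      have := Real.add_one_le_exp (1 / (2 * K))
      linarith
    have r2 : 1 / (1 + 1 / (2 * K)) = 2 * K / (1 + 2 * K) := by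
      field_simp
      ring
    rw [r2] at r1
    have r3 : Real.exp (-(1 / (2 * K))) < 1 := by
      rw [Real.exp_lt_one_iff]
      have : 0 < 1 / (2 * K) := by positivity
      linarith
    have r4 : ∑ j ∈ Finset.range (N + 1), Real.exp (-(1 / (2 * K))) ^ j ≤
        (1 - Real.exp (-(1 / (2 * K))))⁻¹ := by
      have := (summable_geometric_of_lt_one r0 r3).sum_le_tsum (Finset.range (N + 1))
        (fun j _ => pow_nonneg r0 j)
      rwa [tsum_geometric_of_lt_one r0 r3] at this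
    refine r4.trans ?_
    have r5 : 1 / (1 + 2 * K) ≤ 1 - Real.exp (-(1 / (2 * K))) := by
      have : 2 * K / (1 + 2 * K) = 1 - 1 / (1 + 2 * K) := by
        field_simp
        ring
      rw [this] at r1
      linarith
    rw [inv_le_comm₀ (by linarith) (by positivity), ← one_div]
    exact r5
  calc K * Y * ∑ j ∈ Finset.range (N + 1), Real.exp (-(1 / (2 * K))) ^ j
      ≤ K * Y * (1 + 2 * K) := mul_le_mul_of_nonneg_left h9 (mul_nonneg hKp.le hY)
    _ = _ := by ring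

end Pool.Agent.H829D
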